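import Mathlib

/-!
Finite Bessel systems in a Hilbert space.
-/

namespace Pool.Agent.P.MP_98688b_an.N

open InnerProductSpace Finset

variable {H : Type} [NormedAddCommGroup H] [InnerProductSpace ℂ H]
  {I : Type} [Fintype I]

/-- Bessel's inequality with constant one. -/
def Bes (v : I → H) : Prop := ∀ w : H, ∑ i, ‖⟪v i, w⟫_ℂ‖ ^ 2 ≤ ‖w‖ ^ 2

lemma cs_le {f g : I → ℝ} {A B : ℝ} (hA : 0 ≤ A) (hB : 0 ≤ B) (hf : ∑ i, f i ^ 2 ≤ A ^ 2)
    (hg : ∑ i, g i ^ 2 ≤ B ^ 2) : ∑ i, f i * g i ≤ A * B := by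
  have h1 := Finset.sum_mul_sq_le_sq_mul_sq univ f g
  have h2 : (∑ i, f i ^ 2) * ∑ i, g i ^ 2 ≤ A ^ 2 * B ^ 2 :=
    mul_le_mul hf hg (sum_nonneg fun _ _ => sq_nonneg _) (sq_nonneg _)
  refine (abs_le_of_sq_le_sq' ?_ (mul_nonneg hA hB)).2
  rw [mul_pow]
  exact h1.trans h2

lemma Bes.sum_le {u v : I → H} (hu : Bes u) (hv : Bes v) (x y : H) :
    ∑ i, ‖⟪u i, x⟫_ℂ‖ * ‖⟪v i, y⟫_ℂ‖ ≤ ‖x‖ * ‖y‖ :=
  cs_le (norm_nonneg _) (norm_nonneg _) (hu x) (hv y)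

lemma opNorm_le_of_inner {T : H →L[ℂ] H} {C : ℝ} (hC : 0 ≤ C)
    (h : ∀ x y, ‖⟪y, T x⟫_ℂ‖ ≤ C * ‖x‖ * ‖y‖) : ‖T‖ ≤ C := by
  refine T.opNorm_le_bound hC fun x => ?_
  have h1 := h x (T x)
  rw [inner_self_eq_norm_sq_to_K, norm_pow, RCLike.norm_ofReal, abs_norm, sq] at h1
  rcases (norm_nonneg (T x)).eq_or_lt with h0 | h0
  · rw [← h0]; positivity
  · exact le_of_mul_le_mul_right h1 h0

lemma Bes.norm_sum_rankOne_le {u v : I → H} (hu : Bes u) (hv : Bes v) :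
    ‖∑ i, rankOne ℂ (u i) (v i)‖ ≤ 1 := by
  refine opNorm_le_of_inner zero_le_one fun x y => ?_
  rw [_root_.sum_apply, inner_sum, one_mul, mul_comm]
  refine (norm_sum_le _ _).trans (le_of_eq_of_le ?_ (hu.sum_le hv y x))
  refine sum_congr rfl fun i _ => ?_
  rw [inner_right_rankOne_apply, norm_mul, norm_inner_symm]

lemma Bes.smul {v : I → H} (hv : Bes v) {c : I → ℂ} (hc : ∀ i, ‖c i‖ ≤ 1) :
    Bes fun i => c i • v i := fun w => by
  refine (sum_le_sum fun i _ => ?_).trans (hv w)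
  rw [inner_smul_left, norm_mul, RCLike.norm_conj]
  gcongr
  exact mul_le_of_le_one_left (norm_nonneg _) (hc i)

lemma Bes.comp {v : I → H} (hv : Bes v) {K : Type} [Fintype K] (e : K ≃ I) :
    Bes fun k => v (e k) := fun w => by
  rw [e.sum_comp fun i => ‖⟪v i, w⟫_ℂ‖ ^ 2]
  exact hv w

lemma Bes.comp_injective {v : I → H} (hv : Bes v) {K : Type} [Fintype K] {e : K → I}
    (he : Function.Injective e) : Bes fun k => v (e k) := fun w => by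
  refine (sum_map univ ⟨e, he⟩ fun i => ‖⟪v i, w⟫_ℂ‖ ^ 2).symm.trans_le (le_trans ?_ (hv w))
  exact sum_le_sum_of_subset_of_nonneg (subset_univ _) fun _ _ _ => sq_nonneg _

lemma Bes.map [CompleteSpace H] {v : I → H} (hv : Bes v) {S : H →L[ℂ] H} (hS : ‖S‖ ≤ 1) :
    Bes fun i => S (v i) := fun w => by
  simp only [← S.adjoint_inner_right]
  refine (hv _).trans ?_
  gcongr
  refine (ContinuousLinearMap.le_opNorm _ _).trans ?_
  rw [LinearIsometryEquiv.norm_map]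
  exact mul_le_of_le_one_left (norm_nonneg _) hS

lemma Bes.norm_le {v : I → H} (hv : Bes v) (i : I) : ‖v i‖ ≤ 1 := by
  have h1 := (single_le_sum (f := fun k => ‖⟪v k, v i⟫_ℂ‖ ^ 2) (fun _ _ => sq_nonneg _)
    (mem_univ i)).trans (hv (v i))
  simp only [inner_self_eq_norm_sq_to_K, norm_pow, RCLike.norm_ofReal, abs_norm] at h1
  by_contra h
  push Not at h
  have h2 : 1 < ‖v i‖ ^ 2 := by nlinarith
  nlinarith

lemma bes_of_orthogonal {v : I → H} (h1 : ∀ i, ‖v i‖ ≤ 1)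
    (h2 : ∀ i k, i ≠ k → ⟪v i, v k⟫_ℂ = 0) : Bes v := fun w => by
  classical
  set S := ∑ i, ‖⟪v i, w⟫_ℂ‖ ^ 2 with hS
  have hS0 : 0 ≤ S := sum_nonneg fun _ _ => sq_nonneg _
  set w' := ∑ i, ⟪v i, w⟫_ℂ • v i with hw'
  have e1 : ⟪w', w⟫_ℂ = (S : ℂ) := by
    rw [hw', sum_inner, hS]
    push_cast
    refine sum_congr rfl fun i _ => ?_
    rw [inner_smul_left, Complex.conj_mul']
  have e2 : ‖w'‖ ^ 2 ≤ S := by
    have e3 : ((‖w'‖ ^ 2 : ℝ) : ℂ) = ((∑ i, ‖⟪v i, w⟫_ℂ‖ ^ 2 * ‖v i‖ ^ 2 : ℝ) : ℂ) := by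
      push_cast
      rw [← show ⟪w', w'⟫_ℂ = (‖w'‖ : ℂ) ^ 2 from inner_self_eq_norm_sq_to_K w']
      conv_lhs => rw [hw', sum_inner]
      refine sum_congr rfl fun i _ => ?_
      rw [inner_sum, sum_eq_single i]
      · rw [inner_smul_left, inner_smul_right, ← mul_assoc, Complex.conj_mul',
          show ⟪v i, v i⟫_ℂ = (‖v i‖ : ℂ) ^ 2 from inner_self_eq_norm_sq_to_K _]
      · intro k _ hk
        rw [inner_smul_left, inner_smul_right, h2 i k hk.symm, mul_zero, mul_zero]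
      · simp
    rw [Complex.ofReal_inj.1 e3]
    refine sum_le_sum fun i _ => mul_le_of_le_one_right (sq_nonneg _) ?_
    exact pow_le_one₀ (norm_nonneg _) (h1 i)
  have e4 : S ≤ ‖w'‖ * ‖w‖ := by
    have := norm_inner_le_norm (𝕜 := ℂ) w' w
    rwa [e1, Complex.norm_real, Real.norm_of_nonneg hS0] at this
  have e5 : S * S ≤ S * ‖w‖ ^ 2 := by
    calc S * S ≤ (‖w'‖ * ‖w‖) * (‖w'‖ * ‖w‖) := mul_self_le_mul_self hS0 e4
      _ = ‖w'‖ ^ 2 * ‖w‖ ^ 2 := by ring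
      _ ≤ _ := by gcongr
  rcases hS0.eq_or_lt with h0 | h0
  · rw [← h0]; positivity
  · exact le_of_mul_le_mul_left e5 h0

lemma bes_of_orthonormal {K : Type} {b : K → H} (hb : Orthonormal ℂ b) {f : I → K}
    (hf : Function.Injective f) : Bes fun i => b (f i) :=
  bes_of_orthogonal (fun _ => (hb.1 _).le) fun _ _ h => hb.2 (hf.ne h)

end Pool.Agent.P.MP_98688b_an.N
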