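import Mathlib

/-!
Minimal symmetrically normed ideals of operators on a Hilbert space.
-/

namespace Pool.Agent.P.MP_98688b_an.N

open InnerProductSpace

/-- `ι` identifies the normed algebra `J` with a two-sided ideal of the bounded operators on `H`,
the norm of `J` is a symmetric cross norm, and the operators of finite rank are dense in `J`. -/
structure IsNormedIdeal {H : Type} [NormedAddCommGroup H] [InnerProductSpace ℂ H]
    {J : Type} [NonUnitalNormedRing J] [NormedSpace ℂ J] (ι : J →ₗ[ℂ] H →L[ℂ] H) : Prop where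
  injective : Function.Injective ι
  map_mul : ∀ a c : J, ι (a * c) = ι a * ι c
  ideal : ∀ (S T : H →L[ℂ] H) (a : J), ∃ c : J, ι c = S * ι a * T ∧ ‖c‖ ≤ ‖S‖ * ‖a‖ * ‖T‖
  rankOne : ∀ x y : H, ∃ a : J, ι a = rankOne ℂ x y ∧ ‖a‖ = ‖x‖ * ‖y‖
  dense : Dense (Submodule.span ℂ {a : J | ∃ x y : H, ι a = InnerProductSpace.rankOne ℂ x y} :
    Set J)

end Pool.Agent.P.MP_98688b_an.N
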