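import Mathlib
import Pool.Agent.P.MP_98688b_an.N.Defs
import Pool.Agent.P.MP_98688b_an.N.Bessel

/-!
Rank one elements, the action of the bounded operators and pinching in a normed ideal.
-/

namespace Pool.Agent.P.MP_98688b_an.N

open InnerProductSpace Finset Filter Topology

variable {H : Type} [NormedAddCommGroup H] [InnerProductSpace ℂ H]
  {J : Type} [NonUnitalNormedRing J] [NormedSpace ℂ J] {ι : J →ₗ[ℂ] H →L[ℂ] H}
  {I : Type} [Fintype I]

/-- The functional `T ↦ ⟪y, T x⟫`. -/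
noncomputable def coef (y x : H) : (H →L[ℂ] H) →L[ℂ] ℂ :=
  innerSL ℂ y ∘L ContinuousLinearMap.apply ℂ H x

lemma coef_apply (y x : H) (T : H →L[ℂ] H) : coef y x T = ⟪y, T x⟫_ℂ := rfl

namespace IsNormedIdeal

variable (h : IsNormedIdeal ι)

/-- The rank one element. -/
noncomputable def r (x y : H) : J := (h.rankOne x y).choose

/-- The element `S a T`. -/
noncomputable def act (S : H →L[ℂ] H) (a : J) (T : H →L[ℂ] H) : J := (h.ideal S T a).choose

lemma ι_r (x y : H) : ι (h.r x y) = InnerProductSpace.rankOne ℂ x y :=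
  (h.rankOne x y).choose_spec.1

lemma norm_r (x y : H) : ‖h.r x y‖ = ‖x‖ * ‖y‖ := (h.rankOne x y).choose_spec.2

lemma ι_act (S : H →L[ℂ] H) (a : J) (T : H →L[ℂ] H) : ι (h.act S a T) = S * ι a * T :=
  (h.ideal S T a).choose_spec.1

lemma norm_act (S : H →L[ℂ] H) (a : J) (T : H →L[ℂ] H) : ‖h.act S a T‖ ≤ ‖S‖ * ‖a‖ * ‖T‖ :=
  (h.ideal S T a).choose_spec.2

include h in
lemma norm_le_of_eq {S T : H →L[ℂ] H} {a c : J} (e : ι c = S * ι a * T) (hS : ‖S‖ ≤ 1)
    (hT : ‖T‖ ≤ 1) : ‖c‖ ≤ ‖a‖ := by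
  rw [h.injective (e.trans (h.ι_act S a T).symm)]
  refine (h.norm_act S a T).trans ?_
  calc _ ≤ 1 * ‖a‖ * 1 := by gcongr
    _ = _ := by ring

lemma r_smul_left (c : ℂ) (x y : H) : h.r (c • x) y = c • h.r x y :=
  h.injective (by simp [h.ι_r])

lemma r_smul_right (c : ℂ) (x y : H) : h.r x (c • y) = (starRingEnd ℂ c) • h.r x y :=
  h.injective (by simp [h.ι_r])

lemma r_add_left (x x' y : H) : h.r (x + x') y = h.r x y + h.r x' y :=
  h.injective (by simp [h.ι_r])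

lemma r_add_right (x y y' : H) : h.r x (y + y') = h.r x y + h.r x y' :=
  h.injective (by simp [h.ι_r])

lemma mul_r (a : J) (x y : H) : a * h.r x y = h.r (ι a x) y :=
  h.injective (by rw [h.map_mul, h.ι_r, h.ι_r, ContinuousLinearMap.mul_def, comp_rankOne])

lemma r_mul [CompleteSpace H] (a : J) (x y : H) :
    h.r x y * a = h.r x (ContinuousLinearMap.adjoint (ι a) y) :=
  h.injective (by rw [h.map_mul, h.ι_r, h.ι_r, ContinuousLinearMap.mul_def, rankOne_comp])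

lemma r_mul_r {z : H} (hz : ‖z‖ = 1) (x y : H) : h.r x z * h.r z y = h.r x y := by
  rw [h.mul_r, h.ι_r, rankOne_apply, inner_self_eq_norm_sq_to_K, hz]
  simp

include h in
lemma inner_le (a : J) (x y : H) : ‖⟪y, ι a x⟫_ℂ‖ ≤ ‖a‖ * ‖x‖ * ‖y‖ := by
  have e : h.act (InnerProductSpace.rankOne ℂ y y) a (InnerProductSpace.rankOne ℂ x x) =
      ⟪y, ι a x⟫_ℂ • h.r y x := h.injective (by
    rw [h.ι_act, map_smul, h.ι_r, mul_assoc, ContinuousLinearMap.mul_def,
      ContinuousLinearMap.mul_def, comp_rankOne, rankOne_comp_rankOne])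
  have h1 := h.norm_act (InnerProductSpace.rankOne ℂ y y) a (InnerProductSpace.rankOne ℂ x x)
  rw [e, norm_smul, h.norm_r, norm_rankOne, norm_rankOne] at h1
  rcases (mul_nonneg (norm_nonneg y) (norm_nonneg x)).eq_or_lt with h0 | h0
  · rcases mul_eq_zero.1 h0.symm with h0 | h0 <;> simp [norm_eq_zero.1 h0]
  · exact le_of_mul_le_mul_right (h1.trans_eq (by ring)) h0

include h in
lemma norm_ι_le (a : J) : ‖ι a‖ ≤ ‖a‖ := opNorm_le_of_inner (norm_nonneg _) (h.inner_le a)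

/-- The inclusion as a continuous map. -/
noncomputable def incl : J →L[ℂ] H →L[ℂ] H :=
  ι.mkContinuous 1 fun a => by rw [one_mul]; exact h.norm_ι_le a

lemma incl_apply (a : J) : h.incl a = ι a := rfl

end IsNormedIdeal

lemma sign_sum [DecidableEq I] (i k : I) :
    ∑ ε : I → ℤˣ, (((ε i : ℤˣ) : ℤ) : ℂ) * (((ε k : ℤˣ) : ℤ) : ℂ) =
      if i = k then (Fintype.card (I → ℤˣ) : ℂ) else 0 := by
  split_ifs with hik
  · subst hik
    rw [Fintype.card, cast_card]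
    refine sum_congr rfl fun ε _ => ?_
    rcases Int.units_eq_one_or (ε i) with h | h <;> simp [h]
  · have e := Equiv.sum_comp (Equiv.mulRight (Pi.mulSingle i (-1) : I → ℤˣ))
      fun ε : I → ℤˣ => (((ε i : ℤˣ) : ℤ) : ℂ) * (((ε k : ℤˣ) : ℤ) : ℂ)
    simp only [Equiv.coe_mulRight, Pi.mul_apply, Pi.mulSingle_eq_same,
      Pi.mulSingle_eq_of_ne (Ne.symm hik), mul_one, mul_neg, Units.val_neg, Int.cast_neg,
      neg_mul, sum_neg_distrib] at e
    exact self_eq_neg.1 e.symm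

/-- The norm of an average. -/
lemma norm_le_of_avg {E : Type} [NormedAddCommGroup E] [NormedSpace ℂ E] {G : Type} [Fintype G]
    [Nonempty G] {f : G → E} {v : E} {C : ℝ} (hf : ∀ g, ‖f g‖ ≤ C)
    (e : ∑ g, f g = (Fintype.card G : ℂ) • v) : ‖v‖ ≤ C := by
  have h1 : ‖∑ g, f g‖ ≤ (Fintype.card G : ℝ) * C :=
    (norm_sum_le _ _).trans ((sum_le_sum fun g _ => hf g).trans_eq (by simp))
  rw [e, norm_smul, Complex.norm_natCast] at h1
  exact le_of_mul_le_mul_left h1 (by exact_mod_cast Fintype.card_pos)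

lemma perm_sum {G : Type} [Group G] [Fintype G] (ρ : G →* Equiv.Perm I)
    (hρ : ∀ i k, ∃ g, ρ g i = k) (f : I → ℂ) (i : I) :
    ∑ g, f (ρ g i) = (Fintype.card G : ℂ) * ((∑ k, f k) / (Fintype.card I : ℂ)) := by
  have h1 : ∀ k, ∑ g, f (ρ g k) = ∑ g, f (ρ g i) := fun k => by
    obtain ⟨g, rfl⟩ := hρ i k
    rw [← Equiv.sum_comp (Equiv.mulRight g) fun g => f (ρ g i)]
    simp
  have h2 : ∑ k, ∑ g, f (ρ g k) = (Fintype.card G : ℂ) * ∑ k, f k := by
    rw [sum_comm]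
    simp only [fun g : G => Equiv.sum_comp (ρ g) f]
    simp
  simp only [h1, sum_const, card_univ, nsmul_eq_mul] at h2
  have h3 : (Fintype.card I : ℂ) ≠ 0 := by exact_mod_cast (Fintype.card_pos_iff.2 ⟨i⟩).ne'
  rw [← mul_div_assoc, ← h2, mul_div_cancel_left₀ _ h3]

namespace IsNormedIdeal

variable (h : IsNormedIdeal ι)

/-- Pinching. -/
lemma pinch {x y e f : I → H} (hx : Bes x) (hy : Bes y) (he : Bes e) (hf : Bes f) (a : J) :
    ‖∑ i, ⟪y i, ι a (x i)⟫_ℂ • h.r (e i) (f i)‖ ≤ ‖a‖ := by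
  classical
  let s : (I → ℤˣ) → I → ℂ := fun ε i => (((ε i : ℤˣ) : ℤ) : ℂ)
  have hs : ∀ ε i, ‖s ε i‖ ≤ 1 := fun ε i => by
    rcases Int.units_eq_one_or (ε i) with h | h <;> simp [s, h]
  refine norm_le_of_avg (G := I → ℤˣ)
    (f := fun ε => ∑ i, ∑ k, (s ε i * s ε k) • ⟪y i, ι a (x k)⟫_ℂ • h.r (e i) (f k))
    (fun ε => ?_) ?_
  · refine h.norm_le_of_eq (S := ∑ i, InnerProductSpace.rankOne ℂ (s ε i • e i) (y i))
      (T := ∑ k, InnerProductSpace.rankOne ℂ (s ε k • x k) (f k)) ?_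
      ((he.smul (hs ε)).norm_sum_rankOne_le hy) ((hx.smul (hs ε)).norm_sum_rankOne_le hf)
    simp only [map_sum, map_smul, h.ι_r, sum_mul, mul_sum, smul_apply]
    rw [sum_comm]
    refine sum_congr rfl fun k _ => sum_congr rfl fun i _ => ?_
    rw [smul_mul_assoc, smul_mul_assoc, mul_smul_comm, mul_assoc, ContinuousLinearMap.mul_def,
      ContinuousLinearMap.mul_def, comp_rankOne, rankOne_comp_rankOne, mul_smul]
  · rw [sum_comm, smul_sum]
    refine sum_congr rfl fun i _ => ?_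
    rw [sum_comm, sum_eq_single i]
    · rw [← sum_smul, sign_sum, if_pos rfl]
    · intro k _ hk
      rw [← sum_smul, sign_sum, if_neg hk.symm, zero_smul]
    · simp

lemma pinch_norm {x y e f : I → H} (hx : Bes x) (hy : Bes y) (he : Bes e) (hf : Bes f) (a : J) :
    ‖∑ i, (‖⟪y i, ι a (x i)⟫_ℂ‖ : ℂ) • h.r (e i) (f i)‖ ≤ ‖a‖ := by
  choose c hc hc' using fun i => Complex.exists_norm_eq_mul_self ⟪y i, ι a (x i)⟫_ℂ
  refine le_of_eq_of_le ?_ (h.pinch hx hy (he.smul fun i => (hc i).le) hf a)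
  congr 1
  refine sum_congr rfl fun i _ => ?_
  rw [hc', h.r_smul_left, smul_smul, mul_comm]

/-- Pinching followed by averaging over all permutations. -/
lemma sum_mul_le {x y e f : I → H} (hx : Bes x) (hy : Bes y) (he : Bes e) (hf : Bes f) (a : J) :
    (∑ i, ‖⟪y i, ι a (x i)⟫_ℂ‖) * ‖∑ i, h.r (e i) (f i)‖ ≤ Fintype.card I * ‖a‖ := by
  classical
  rcases isEmpty_or_nonempty I with hI | hI
  · simp
  have h0 : (0 : ℝ) < Fintype.card I := by exact_mod_cast Fintype.card_pos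
  have key : ‖(((∑ i, ‖⟪y i, ι a (x i)⟫_ℂ‖) / Fintype.card I : ℝ) : ℂ) •
      ∑ i, h.r (e i) (f i)‖ ≤ ‖a‖ := by
    refine norm_le_of_avg (G := Equiv.Perm I)
      (fun σ => h.pinch_norm (hx.comp σ) (hy.comp σ) he hf a) ?_
    rw [sum_comm, smul_sum, smul_sum]
    refine sum_congr rfl fun i _ => ?_
    have e := perm_sum (MonoidHom.id (Equiv.Perm I)) (fun i k => ⟨Equiv.swap i k, by simp⟩)
      (fun i => (‖⟪y i, ι a (x i)⟫_ℂ‖ : ℂ)) i
    rw [← sum_smul, ← mul_smul]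
    push_cast
    rw [← e]
    rfl
  rwa [norm_smul, Complex.norm_real, Real.norm_of_nonneg (by positivity), div_mul_eq_mul_div,
    div_le_iff₀' h0] at key

lemma harmonic_of_tail [CompleteSpace J] {b : ℕ → H} (hb : Orthonormal ℂ b)
    (ht : ∀ ε : ℝ, 0 < ε → ∃ d : ℕ, ∀ M : ℕ,
      ‖∑ k ∈ Ico d M, (1 / ((k : ℂ) + 1)) • h.r (b k) (b k)‖ < ε) :
    ∃ a, ∀ k, ι a (b k) = (1 / ((k : ℂ) + 1)) • b k := by
  let s : ℕ → J := fun M => ∑ k ∈ range M, (1 / ((k : ℂ) + 1)) • h.r (b k) (b k)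
  have hs : CauchySeq s := by
    refine Metric.cauchySeq_iff'.2 fun ε hε => (ht ε hε).imp fun d hd M hM => ?_
    rw [dist_eq_norm, ← sum_Ico_eq_sub _ hM]
    exact hd M
  obtain ⟨a, ha⟩ := cauchySeq_tendsto_of_complete hs
  refine ⟨a, fun k => ?_⟩
  have h1 : Tendsto (fun M => ι (s M) (b k)) atTop (𝓝 (ι a (b k))) :=
    (((ContinuousLinearMap.apply ℂ H (b k)) ∘L h.incl).continuous.tendsto a).comp ha
  refine tendsto_nhds_unique h1 (tendsto_const_nhds.congr' ?_)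
  filter_upwards [eventually_gt_atTop k] with M hM
  simp only [s, map_sum, map_smul, h.ι_r, _root_.sum_apply, smul_apply, rankOne_apply]
  rw [sum_eq_single k (fun i _ hi => by rw [hb.2 hi, zero_smul, smul_zero])
    (fun hk => (hk (mem_range.2 hM)).elim), inner_self_eq_norm_sq_to_K, hb.1]
  simp

end IsNormedIdeal

end Pool.Agent.P.MP_98688b_an.N
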