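import Mathlib
import Pool.Agent.P.MP_98688b_an.N.Basic

/-!
The normed ideal generated by an invariant family of functionals.
-/

namespace Pool.Agent.P.MP_98688b_an.N

open InnerProductSpace Finset BoundedContinuousFunction

set_option maxSynthPendingDepth 3

lemma exists_unit {V : Type} [NormedAddCommGroup V] [NormedSpace ℂ V] (x : V) :
    ∃ y, ‖y‖ ≤ 1 ∧ x = (‖x‖ : ℂ) • y := by
  rcases eq_or_ne x 0 with rfl | hx
  · exact ⟨0, by simp, by simp⟩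
  · have h : (‖x‖ : ℂ) ≠ 0 := by simpa using hx
    exact ⟨(‖x‖ : ℂ)⁻¹ • x, by simp [norm_smul, hx], by rw [smul_inv_smul₀ h]⟩

variable {H : Type} [NormedAddCommGroup H] [InnerProductSpace ℂ H]

/-- The multiplication of a normed space that is embedded as an ideal. -/
@[reducible] noncomputable def ringOf {V : Type} [NormedAddCommGroup V] [NormedSpace ℂ V]
    (ι : V →ₗ[ℂ] H →L[ℂ] H) (h1 : Function.Injective ι) (m : V → V → V)
    (h2 : ∀ a c, ι (m a c) = ι a * ι c) (h3 : ∀ a c, ‖m a c‖ ≤ ‖a‖ * ‖c‖) :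
    NonUnitalNormedRing V :=
  { (inferInstance : NormedAddCommGroup V) with
    mul := m
    left_distrib := fun a c d => h1 (show ι (m a (c + d)) = ι (m a c + m a d) by
      simp only [map_add, h2, mul_add])
    right_distrib := fun a c d => h1 (show ι (m (a + c) d) = ι (m a d + m c d) by
      simp only [map_add, h2, add_mul])
    zero_mul := fun a => h1 (show ι (m 0 a) = ι 0 by simp only [h2, map_zero, zero_mul])
    mul_zero := fun a => h1 (show ι (m a 0) = ι 0 by simp only [h2, map_zero, mul_zero])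
    mul_assoc := fun a c d => h1 (show ι (m (m a c) d) = ι (m a (m c d)) by
      simp only [h2, mul_assoc])
    norm_mul_le := h3 }

lemma exists_ring {V : Type} [NormedAddCommGroup V] [NormedSpace ℂ V] [CompleteSpace V]
    (ι : V →ₗ[ℂ] H →L[ℂ] H) (i0 : ∀ a, ‖ι a‖ ≤ ‖a‖) (i1 : Function.Injective ι)
    (i2 : ∀ (S T : H →L[ℂ] H) (a : V), ∃ c : V, ι c = S * ι a * T ∧ ‖c‖ ≤ ‖S‖ * ‖a‖ * ‖T‖)
    (i3 : ∀ x y : H, ∃ a : V, ι a = rankOne ℂ x y ∧ ‖a‖ = ‖x‖ * ‖y‖)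
    (i4 : Dense (Submodule.span ℂ {a : V | ∃ x y : H, ι a = rankOne ℂ x y} : Set V)) :
    ∃ (J : Type) (_ : NonUnitalNormedRing J) (_ : NormedSpace ℂ J) (_ : IsScalarTower ℂ J J)
      (_ : SMulCommClass ℂ J J) (_ : CompleteSpace J) (ι' : J →ₗ[ℂ] H →L[ℂ] H) (e : J → V),
      IsNormedIdeal ι' ∧ (∀ a, ι' a = ι (e a)) ∧ ∀ a, ‖a‖ = ‖e a‖ := by
  choose m h2 h3 using fun a c => i2 (ι a) 1 c
  simp only [mul_one] at h2
  have h4 : ∀ a c, ‖m a c‖ ≤ ‖a‖ * ‖c‖ := fun a c => by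
    refine (h3 a c).trans ?_
    calc _ ≤ ‖a‖ * ‖c‖ * 1 := by
          gcongr
          exacts [i0 a, ContinuousLinearMap.norm_id_le]
      _ = _ := mul_one _
  refine ⟨V, ringOf ι i1 m h2 h4, inferInstance, ?_, ?_, inferInstance, ι, id, ?_, fun _ => rfl,
    fun _ => rfl⟩
  · let := ringOf ι i1 m h2 h4
    exact ⟨fun t a c => i1 (show ι (m (t • a) c) = ι (t • m a c) by
      simp only [h2, map_smul, smul_mul_assoc])⟩
  · let := ringOf ι i1 m h2 h4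
    exact ⟨fun t a c => i1 (show ι (t • m a c) = ι (m a (t • c)) by
      simp only [h2, map_smul, mul_smul_comm])⟩
  · let := ringOf ι i1 m h2 h4
    exact ⟨i1, h2, i2, i3, i4⟩

variable (𝒯 : Set ((H →L[ℂ] H) →L[ℂ] ℂ))

/-- Operators on which the functionals are bounded, together with their values. -/
def graph : Submodule ℂ ((H →L[ℂ] H) × (𝒯 →ᵇ ℂ)) where
  carrier := {p | ∀ g : 𝒯, p.2 g = g.1 p.1}
  add_mem' {p q} hp hq g := by simp [hp g, hq g]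
  zero_mem' g := by simp
  smul_mem' c p hp g := by simp [hp g]

lemma isClosed_graph : IsClosed (graph 𝒯 : Set ((H →L[ℂ] H) × (𝒯 →ᵇ ℂ))) := by
  have : (graph 𝒯 : Set ((H →L[ℂ] H) × (𝒯 →ᵇ ℂ))) = ⋂ g : 𝒯, {p | p.2 g = g.1 p.1} :=
    Set.ofPred_forall _
  rw [this]
  exact isClosed_iInter fun g => isClosed_eq (by fun_prop) (by fun_prop)

variable {𝒯}

lemma graph_ext {p q : graph 𝒯} (h : p.1.1 = q.1.1) : p = q :=
  Subtype.ext (Prod.ext h (BoundedContinuousFunction.ext fun g => by rw [p.2 g, q.2 g, h]))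

lemma graph_norm_le {p : graph 𝒯} {C : ℝ} (h1 : ‖p.1.1‖ ≤ C) (h2 : ∀ g ∈ 𝒯, ‖g p.1.1‖ ≤ C) :
    ‖p‖ ≤ C :=
  max_le h1 ((norm_le ((norm_nonneg _).trans h1)).2 fun g =>
    (congrArg norm (p.2 g)).trans_le (h2 g g.2))

lemma le_graph_norm (p : graph 𝒯) {g : (H →L[ℂ] H) →L[ℂ] ℂ} (hg : g ∈ 𝒯) : ‖g p.1.1‖ ≤ ‖p‖ := by
  rw [← p.2 ⟨g, hg⟩]
  exact (norm_coe_le_norm _ _).trans (le_max_right _ _)

lemma exists_graph {T : H →L[ℂ] H} {C : ℝ} (h : ∀ g ∈ 𝒯, ‖g T‖ ≤ C) :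
    ∃ p : graph 𝒯, p.1.1 = T :=
  ⟨⟨(T, ofNormedAddCommGroup (fun g : 𝒯 => g.1 T) (by fun_prop) C fun g => h g g.2),
    fun _ => rfl⟩, rfl⟩

theorem exists_ideal [CompleteSpace H]
    (h1 : ∀ g ∈ 𝒯, ∀ S T : H →L[ℂ] H, ‖S‖ ≤ 1 → ‖T‖ ≤ 1 → ∃ g' ∈ 𝒯, ∀ A, g' A = g (S * A * T))
    (h2 : ∀ g ∈ 𝒯, ∀ x y : H, ‖x‖ ≤ 1 → ‖y‖ ≤ 1 → ‖g (rankOne ℂ x y)‖ ≤ 1) :
    ∃ (J : Type) (_ : NonUnitalNormedRing J) (_ : NormedSpace ℂ J) (_ : IsScalarTower ℂ J J)
      (_ : SMulCommClass ℂ J J) (_ : CompleteSpace J) (ι : J →ₗ[ℂ] H →L[ℂ] H), IsNormedIdeal ι ∧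
      (∀ a, ∀ g ∈ 𝒯, ‖g (ι a)‖ ≤ ‖a‖) ∧
      ∀ a C, ‖ι a‖ ≤ C → (∀ g ∈ 𝒯, ‖g (ι a)‖ ≤ C) → ‖a‖ ≤ C := by
  have h3 : ∀ (S T : H →L[ℂ] H) (p : graph 𝒯), ∀ g ∈ 𝒯,
      ‖g (S * p.1.1 * T)‖ ≤ ‖S‖ * ‖p‖ * ‖T‖ := fun S T p g hg => by
    obtain ⟨S', hS, eS⟩ := exists_unit S
    obtain ⟨T', hT, eT⟩ := exists_unit T
    obtain ⟨g', hg', e⟩ := h1 g hg S' T' hS hT
    conv_lhs => rw [eS, eT, smul_mul_assoc, smul_mul_assoc, mul_smul_comm, map_smul, map_smul, ← e]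
    rw [norm_smul, norm_smul, Complex.norm_real, Complex.norm_real, norm_norm, norm_norm,
      mul_assoc, mul_comm ‖T‖]
    gcongr
    exact le_graph_norm p hg'
  have h4 : ∀ x y : H, ∀ g ∈ 𝒯, ‖g (rankOne ℂ x y)‖ ≤ ‖x‖ * ‖y‖ := fun x y g hg => by
    obtain ⟨x', hx, ex⟩ := exists_unit x
    obtain ⟨y', hy, ey⟩ := exists_unit y
    conv_lhs => rw [ex, ey]
    simp only [map_smul, map_smulₛₗ, _root_.smul_apply, norm_smul, RCLike.norm_conj,
      Complex.norm_real, norm_norm]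
    have := h2 g hg x' y' hx hy
    calc _ ≤ ‖y‖ * (‖x‖ * 1) := by gcongr
      _ = _ := by ring
  choose act hact using fun S T p => exists_graph (h3 S T p)
  have hn : ∀ S T p, ‖act S T p‖ ≤ ‖S‖ * ‖p‖ * ‖T‖ := fun S T p => graph_norm_le (by
    rw [hact]
    refine (norm_mul_le _ _).trans ?_
    gcongr
    refine (norm_mul_le _ _).trans ?_
    gcongr
    exact le_max_left _ _) fun g hg => by rw [hact]; exact h3 S T p g hg
  let actL : (H →L[ℂ] H) → (H →L[ℂ] H) → graph 𝒯 →L[ℂ] graph 𝒯 := fun S T =>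
    LinearMap.mkContinuous
      { toFun := act S T
        map_add' := fun p q => graph_ext (by simp [hact, mul_add, add_mul])
        map_smul' := fun c p => graph_ext (by simp [hact]) } (‖S‖ * ‖T‖)
      fun p => (hn S T p).trans_eq (mul_right_comm _ _ _)
  let R : Set (graph 𝒯) := {p | ∃ x y : H, p.1.1 = rankOne ℂ x y}
  let V := (Submodule.span ℂ R).topologicalClosure
  have hR : ∀ p ∈ R, p ∈ V := fun p hp =>
    Submodule.le_topologicalClosure _ (Submodule.subset_span hp)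
  have hV : ∀ S T, ∀ p ∈ V, act S T p ∈ V := fun S T =>
    Submodule.topologicalClosure_minimal (t := V.comap (actL S T).toLinearMap) _
      (Submodule.span_le.2 fun p ⟨x, y, e⟩ => hR _ ⟨S x, ContinuousLinearMap.adjoint T y, by
        show (act S T p).1.1 = _
        rw [hact, e, ContinuousLinearMap.mul_def, ContinuousLinearMap.mul_def, comp_rankOne,
          rankOne_comp]⟩)
      ((Submodule.isClosed_topologicalClosure _).preimage (actL S T).continuous)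
  let ι : V →ₗ[ℂ] H →L[ℂ] H := LinearMap.fst ℂ _ _ ∘ₗ (graph 𝒯).subtype ∘ₗ V.subtype
  have i1 : Function.Injective ι := fun p q e => Subtype.ext (graph_ext e)
  have i2 : ∀ (S T : H →L[ℂ] H) (a : V), ∃ c : V, ι c = S * ι a * T ∧ ‖c‖ ≤ ‖S‖ * ‖a‖ * ‖T‖ :=
    fun S T a => ⟨⟨act S T a, hV S T a a.2⟩, hact S T a, hn S T a⟩
  have := (isClosed_graph 𝒯).completeSpace_coe
  have : CompleteSpace V := (Submodule.isClosed_topologicalClosure _).completeSpace_coe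
  have i3 : ∀ x y : H, ∃ a : V, ι a = rankOne ℂ x y ∧ ‖a‖ = ‖x‖ * ‖y‖ := fun x y => by
    obtain ⟨p, hp⟩ := exists_graph (h4 x y)
    refine ⟨⟨p, hR p ⟨x, y, hp⟩⟩, hp, le_antisymm (graph_norm_le (p := p) ?_ ?_) ?_⟩
    · rw [hp, norm_rankOne]
    · rw [hp]; exact h4 x y
    · rw [← norm_rankOne (𝕜 := ℂ), ← hp]
      exact le_max_left _ _
  have i4 : Dense (Submodule.span ℂ {a : V | ∃ x y : H, ι a = rankOne ℂ x y} : Set V) := by
    refine Subtype.dense_iff.2 (closure_mono ?_)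
    rw [← Submodule.coe_subtype, ← Submodule.map_coe, Submodule.map_span]
    exact Submodule.span_mono fun p hp => ⟨⟨p, hR p hp⟩, hp, rfl⟩
  obtain ⟨J, j1, j2, j3, j4, j5, ι', e, k1, k2, k3⟩ :=
    exists_ring ι (fun a => le_max_left _ _) i1 i2 i3 i4
  refine ⟨J, j1, j2, j3, j4, j5, ι', k1, fun a g hg => ?_, fun a C => ?_⟩
  · rw [k2 a, k3 a]; exact le_graph_norm (e a).1 hg
  · rw [k2 a, k3 a]; exact graph_norm_le (p := (e a).1)

end Pool.Agent.P.MP_98688b_an.N
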