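import Mathlib
import Pool.Agent.P.MP_98688b_an.N.Bessel

/-!
Orthonormal bases of finite dimensional subspaces adapted to an operator, and chains of subspaces.
-/

namespace Pool.Agent.P.MP_98688b_an.N

open InnerProductSpace Finset Module

variable {H : Type} [NormedAddCommGroup H] [InnerProductSpace ℂ H] [CompleteSpace H]

/-- The projection onto the orthogonal complement. -/
noncomputable def Q (E : Submodule ℂ H) : H →L[ℂ] H := Eᗮ.starProjection

lemma Q_mem (E : Submodule ℂ H) (v : H) : Q E v ∈ Eᗮ := Eᗮ.starProjection_apply_mem v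

lemma sub_Q_mem (E : Submodule ℂ H) [FiniteDimensional ℂ E] (v : H) : v - Q E v ∈ E := by
  have : CompleteSpace E := FiniteDimensional.complete ℂ E
  have := Eᗮ.sub_starProjection_mem_orthogonal v
  rwa [Submodule.orthogonal_orthogonal] at this

lemma Q_eq_zero {E : Submodule ℂ H} {v : H} (hv : v ∈ E) : Q E v = 0 :=
  (Submodule.starProjection_apply_eq_zero_iff _).2 (E.le_orthogonal_orthogonal hv)

lemma inner_Q {E : Submodule ℂ H} {y : H} (hy : y ∈ Eᗮ) (v : H) : ⟪y, Q E v⟫_ℂ = ⟪y, v⟫_ℂ := by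
  rw [Q, ← Submodule.inner_starProjection_left_eq_right, Submodule.starProjection_eq_self_iff.2 hy]

lemma norm_Q_le (E : Submodule ℂ H) : ‖Q E‖ ≤ 1 := Eᗮ.starProjection_norm_le

/-- An orthonormal basis of the subspace `E`. -/
structure Frame (E : Submodule ℂ H) {n : ℕ} (q : Fin n → H) : Prop where
  on : Orthonormal ℂ q
  mem : ∀ i, q i ∈ E
  sum : ∀ w ∈ E, ∑ i, ⟪q i, w⟫_ℂ • q i = w

lemma Frame.sub_Q {E : Submodule ℂ H} [FiniteDimensional ℂ E] {n : ℕ} {q : Fin n → H}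
    (h : Frame E q) (v : H) : ∑ i, ⟪q i, v⟫_ℂ • q i = v - Q E v := by
  rw [← h.sum _ (sub_Q_mem E v)]
  refine sum_congr rfl fun i _ => ?_
  rw [inner_sub_right, Submodule.inner_right_of_mem_orthogonal (h.mem i) (Q_mem E v), sub_zero]

section swap

variable {Y : Type*} [AddCommGroup Y] [Module ℂ Y] (ψ : H →ₗ[ℂ] H →ₗ⋆[ℂ] Y)

omit [CompleteSpace H] in
lemma swap_sum {I K : Type} [Fintype I] [Fintype K] (w : K → H) (q : I → H) (c : K → I → ℂ) :
    ∑ i, ψ (∑ k, c k i • w k) (q i) = ∑ k, ψ (w k) (∑ i, starRingEnd ℂ (c k i) • q i) := by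
  simp only [map_sum, map_smul, LinearMap.sum_apply, LinearMap.smul_apply, map_smulₛₗ,
    Complex.conj_conj]
  exact sum_comm

variable {E : Submodule ℂ H} {n m : ℕ} {q : Fin n → H} {x : Fin m → H}

omit [CompleteSpace H] in
lemma frame_left (hq : Frame E q) (hx : Frame E x) (B : H →L[ℂ] H) :
    ∑ i, ψ (B (q i)) (q i) = ∑ k, ψ (B (x k)) (x k) := by
  have e : ∀ i, B (q i) = ∑ k, ⟪x k, q i⟫_ℂ • B (x k) := fun i => by
    conv_lhs => rw [← hx.sum _ (hq.mem i)]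
    simp only [map_sum, map_smul]
  rw [sum_congr rfl fun i _ => by rw [e i], swap_sum]
  simp only [inner_conj_symm, fun k => hq.sum _ (hx.mem k)]

omit [CompleteSpace H] in
lemma frame_right (hq : Frame E q) (hx : Frame E x) (B : H →L[ℂ] H) :
    ∑ i, ψ (q i) (B (q i)) = ∑ k, ψ (x k) (B (x k)) := by
  have e : ∀ i, ψ (q i) = ψ (∑ k, ⟪x k, q i⟫_ℂ • x k) := fun i => by rw [hx.sum _ (hq.mem i)]
  rw [sum_congr rfl fun i _ => by rw [e i], swap_sum]
  simp only [inner_conj_symm, ← map_smul, ← map_sum, fun k => hq.sum _ (hx.mem k)]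

lemma frame_mid [FiniteDimensional ℂ E] (hq : Frame E q) (A : H →L[ℂ] H) :
    ∑ i, ψ (A (q i)) (q i) - ∑ i, ψ (q i) (ContinuousLinearMap.adjoint A (q i)) =
      ∑ i, ψ (Q E (A (q i))) (q i) - ∑ i, ψ (q i) (Q E (ContinuousLinearMap.adjoint A (q i))) := by
  have e := swap_sum ψ q q fun k i => ⟪q k, A (q i)⟫_ℂ
  simp only [inner_conj_symm, ← ContinuousLinearMap.adjoint_inner_right, hq.sub_Q, map_sub,
    LinearMap.sub_apply, sum_sub_distrib] at e
  rw [sub_eq_sub_iff_sub_eq_sub, e]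

end swap

lemma exists_svd (E : Submodule ℂ H) [FiniteDimensional ℂ E] (B : H →L[ℂ] H) {n : ℕ}
    (hn : finrank ℂ E = n) : ∃ q : Fin n → H, Frame E q ∧ (∀ i k, i ≠ k → ⟪B (q i), B (q k)⟫_ℂ = 0) ∧
      ∀ w ∈ E, B w = 0 → ∀ i, B (q i) ≠ 0 → ⟪w, q i⟫_ℂ = 0 := by
  have : CompleteSpace E := FiniteDimensional.complete ℂ E
  let C : E →L[ℂ] H := B ∘L E.subtypeL
  let S : E →ₗ[ℂ] E := (ContinuousLinearMap.adjoint C ∘L C : E →L[ℂ] E)
  have hS : ∀ u v : E, ⟪u, S v⟫_ℂ = ⟪B u, B v⟫_ℂ := fun u v =>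
    ContinuousLinearMap.adjoint_inner_right C u (C v)
  have hsym : S.IsSymmetric := fun u v => by
    rw [hS, ← inner_conj_symm, hS, inner_conj_symm]
  let x := hsym.eigenvectorBasis hn
  have hx : ∀ (u : E) i, ⟪B u, B (x i)⟫_ℂ = (hsym.eigenvalues hn i : ℂ) * ⟪u, x i⟫_ℂ :=
    fun u i => by rw [← hS, hsym.apply_eigenvectorBasis, inner_smul_right]; rfl
  refine ⟨fun i => x i, ⟨x.orthonormal.comp_linearIsometry E.subtypeₗᵢ, fun i => (x i).2,
    fun w hw => ?_⟩, fun i k hik => ?_, fun w hw h0 i hi => ?_⟩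
  · have := congrArg Subtype.val (x.sum_repr' ⟨w, hw⟩)
    simpa using this
  · rw [hx, x.orthonormal.2 hik, mul_zero]
  · have h1 := hx ⟨w, hw⟩ i
    have h2 := hx (x i) i
    rw [show B (⟨w, hw⟩ : E) = 0 from h0, inner_zero_left] at h1
    refine (mul_eq_zero.1 h1.symm).resolve_left fun h3 => hi ?_
    rwa [h3, zero_mul, inner_self_eq_zero] at h2

/-- Along a chain of subspaces the off-diagonal blocks of `T` are diagonalised by two Bessel
systems. -/
lemma exists_blocks (E : ℕ → Submodule ℂ H) [∀ n, FiniteDimensional ℂ (E n)] (hE : Monotone E)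
    (T : H →L[ℂ] H) (hT : ∀ n, ∀ v ∈ E n, T v ∈ E (n + 1)) (m : ℕ → ℕ)
    (hm : ∀ n, finrank ℂ (E n) ≤ m n) :
    ∃ x y : ℕ → ℕ → H, (∀ n i, y n i ∈ (E 0)ᗮ) ∧
      (∀ N, Bes (fun p : Σ n : Fin N, Fin (m n) => x p.1 p.2) ∧
        Bes (fun p : Σ n : Fin N, Fin (m n) => y p.1 p.2)) ∧
      ∀ n, ∃ q : Fin (finrank ℂ (E n)) → H, Frame (E n) q ∧
        ∑ i, ‖Q (E n) (T (q i))‖ = ∑ i : Fin (m n), ‖⟪y n i, T (x n i)⟫_ℂ‖ := by
  classical
  choose q hq ho hk using fun n => exists_svd (E n) (Q (E n) ∘L T) rfl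
  simp only [ContinuousLinearMap.comp_apply] at ho hk
  let x : ℕ → ℕ → H := fun n i => if h : i < finrank ℂ (E n) then
    (if Q (E n) (T (q n ⟨i, h⟩)) = 0 then 0 else q n ⟨i, h⟩) else 0
  let y : ℕ → ℕ → H := fun n i => ((‖Q (E n) (T (x n i))‖⁻¹ : ℝ) : ℂ) • Q (E n) (T (x n i))
  have hx : ∀ n i, x n i = 0 ∨ ∃ h : i < finrank ℂ (E n), x n i = q n ⟨i, h⟩ ∧
      Q (E n) (T (q n ⟨i, h⟩)) ≠ 0 := fun n i => by
    by_cases h : i < finrank ℂ (E n)
    · by_cases h' : Q (E n) (T (q n ⟨i, h⟩)) = 0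
      · left; simp [x, h, h']
      · right; exact ⟨h, by simp [x, h, h'], h'⟩
    · left; simp [x, h]
  have x1 : ∀ n i, x n i ∈ E n := fun n i => by
    rcases hx n i with h | ⟨h, e, -⟩
    · rw [h]; exact zero_mem _
    · rw [e]; exact (hq n).mem _
  have x2 : ∀ n n' i k, n < n' → ⟪x n i, x n' k⟫_ℂ = 0 := fun n n' i k hn => by
    rcases hx n' k with h | ⟨h, e, h'⟩
    · rw [h, inner_zero_right]
    · rw [e]
      exact hk n' _ (hE hn.le (x1 n i)) (Q_eq_zero (hE hn (hT n _ (x1 n i)))) _ h'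
  have y1 : ∀ n i, y n i ∈ (E n)ᗮ := fun n i => Submodule.smul_mem _ _ (Q_mem _ _)
  have y2 : ∀ n i, y n i ∈ E (n + 1) := fun n i => by
    refine Submodule.smul_mem _ _ ?_
    have := sub_mem (hT n _ (x1 n i)) (hE n.le_succ (sub_Q_mem (E n) (T (x n i))))
    rwa [sub_sub_cancel] at this
  have y3 : ∀ n n' i k, n < n' → ⟪y n i, y n' k⟫_ℂ = 0 := fun n n' i k hn =>
    Submodule.inner_right_of_mem_orthogonal (hE hn (y2 n i)) (y1 n' k)
  have x3 : ∀ n i k, i ≠ k → ⟪x n i, x n k⟫_ℂ = 0 ∧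
      ⟪Q (E n) (T (x n i)), Q (E n) (T (x n k))⟫_ℂ = 0 := fun n i k hik => by
    rcases hx n i with h | ⟨h, e, -⟩
    · simp [h]
    · rcases hx n k with h' | ⟨h', e', -⟩
      · simp [h']
      · have hne : (⟨i, h⟩ : Fin _) ≠ ⟨k, h'⟩ := fun c => hik (congrArg Fin.val c)
        rw [e, e']
        exact ⟨(hq n).on.2 hne, ho n _ _ hne⟩
  have key : ∀ (z : ℕ → ℕ → H) (N : ℕ), (∀ n i, ‖z n i‖ ≤ 1) →
      (∀ n n' i k, n < n' → ⟪z n i, z n' k⟫_ℂ = 0) → (∀ n i k, i ≠ k → ⟪z n i, z n k⟫_ℂ = 0) →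
      Bes (fun p : Σ n : Fin N, Fin (m n) => z p.1 p.2) := fun z N h1 h2 h3 => by
    refine bes_of_orthogonal (fun _ => h1 _ _) ?_
    rintro ⟨n, i⟩ ⟨n', k⟩ hne
    rcases lt_trichotomy n n' with h | h | h
    · exact h2 _ _ _ _ h
    · subst h
      exact h3 _ _ _ fun c => hne (by rw [show i = k from Fin.ext c])
    · rw [← inner_conj_symm, h2 _ _ _ _ h, map_zero]
  refine ⟨x, y, fun n i => Submodule.orthogonal_le (hE n.zero_le) (y1 n i),
    fun N => ⟨key x N (fun n i => ?_) x2 fun n i k h => (x3 n i k h).1,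
      key y N (fun n i => ?_) y3 fun n i k h => ?_⟩, fun n => ⟨q n, hq n, ?_⟩⟩
  · rcases hx n i with h | ⟨h, e, -⟩
    · simp [h]
    · rw [e]; exact ((hq n).on.1 _).le
  · rw [norm_smul, Complex.norm_real, norm_inv, norm_norm]
    exact inv_mul_le_one_of_le₀ le_rfl (norm_nonneg _)
  · rw [inner_smul_left, inner_smul_right, (x3 n i k h).2, mul_zero, mul_zero]
  · have e1 : ∀ i, ‖⟪y n i, T (x n i)⟫_ℂ‖ = ‖Q (E n) (T (x n i))‖ := fun i => by
      rw [← inner_Q (y1 n i), inner_smul_left, norm_mul, RCLike.norm_conj, Complex.norm_real,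
        norm_inv, norm_norm, inner_self_eq_norm_sq_to_K, norm_pow, RCLike.norm_ofReal, abs_norm,
        sq]
      rcases eq_or_ne ‖Q (E n) (T (x n i))‖ 0 with h | h
      · simp [h]
      · rw [inv_mul_cancel_left₀ h]
    simp only [e1]
    rw [Fin.sum_univ_eq_sum_range (fun i => ‖Q (E n) (T (x n i))‖),
      ← sum_subset (range_subset_range.2 (hm n)) fun i _ hi => ?_,
      ← Fin.sum_univ_eq_sum_range (fun i => ‖Q (E n) (T (x n i))‖)]
    · refine sum_congr rfl fun i _ => ?_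
      by_cases h' : Q (E n) (T (q n i)) = 0 <;> simp [x, h']
    · simp [x, mem_range.not.1 hi]

end Pool.Agent.P.MP_98688b_an.N
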