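import Mathlib
import Pool.Agent.P.MP_98688b_an.N.Basic
import Pool.Agent.P.MP_98688b_an.N.Frame

/-!
If the harmonic diagonal operator is not in the ideal, finitely many elements of the ideal almost
commute in trace norm with a finite rank projection.
-/

namespace Pool.Agent.P.MP_98688b_an.N

open InnerProductSpace Finset Module Filter Topology

lemma avg_blocks {V : Type} [NormedAddCommGroup V] [NormedSpace ℂ V] {K : Type} [Fintype K]
    [DecidableEq K] {m : K → ℕ} (g : (Σ n, Fin (m n)) → V) (s : ∀ n, Fin (m n) → ℂ) {C : ℝ}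
    (hs : ∀ σ : ∀ n, Equiv.Perm (Fin (m n)), ‖∑ p : Σ n, Fin (m n), s p.1 (σ p.1 p.2) • g p‖ ≤ C) :
    ‖∑ p : Σ n, Fin (m n), ((∑ k, s p.1 k) / (m p.1 : ℂ)) • g p‖ ≤ C := by
  refine norm_le_of_avg hs ?_
  rw [sum_comm, smul_sum]
  refine sum_congr rfl fun p _ => ?_
  have e := perm_sum (Pi.evalMonoidHom (fun n => Equiv.Perm (Fin (m n))) p.1)
    (fun i k => ⟨Pi.mulSingle p.1 (Equiv.swap i k), by simp⟩) (s p.1) p.2
  rw [Fintype.card_fin] at e
  rw [← sum_smul, ← mul_smul, ← e]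
  rfl

lemma sum_blocks {V : Type} [AddCommMonoid V] {u : ℕ → ℕ} (hu : Monotone u) (F : ℕ → V) (N : ℕ) :
    ∑ p : Σ n : Fin N, Fin (u (n + 1) - u n), F (u p.1 + p.2) = ∑ k ∈ Ico (u 0) (u N), F k := by
  rw [Fintype.sum_sigma]
  simp only [fun n : Fin N => Fin.sum_univ_eq_sum_range (fun i => F (u n + i)) (u (n + 1) - u n),
    ← sum_Ico_eq_sum_range]
  rw [Fin.sum_univ_eq_sum_range (fun n => ∑ k ∈ Ico (u n) (u (n + 1)), F k)]
  induction N with
  | zero => simp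
  | succ N ih => rw [sum_range_succ, ih, sum_Ico_consecutive _ (hu N.zero_le) (hu N.le_succ)]

lemma blocks_injective {u : ℕ → ℕ} (hu : Monotone u) (N : ℕ) :
    Function.Injective fun p : Σ n : Fin N, Fin (u (n + 1) - u n) => u p.1 + p.2 := by
  rintro ⟨n, i⟩ ⟨n', k⟩ h
  simp only at h
  have hi := i.2
  have hk := k.2
  rcases lt_trichotomy n n' with h' | h' | h'
  · have := hu (show (n : ℕ) + 1 ≤ n' from h')
    omega
  · subst h'
    rw [show i = k from Fin.ext (by omega)]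
  · have := hu (show (n' : ℕ) + 1 ≤ n from h')
    omega

variable {H : Type} [NormedAddCommGroup H] [InnerProductSpace ℂ H]
  {J : Type} [NonUnitalNormedRing J] [NormedSpace ℂ J] {ι : J →ₗ[ℂ] H →L[ℂ] H}

lemma exists_step {κ : Type} [Fintype κ] (T : κ → H →L[ℂ] H) (F : Submodule ℂ H)
    [FiniteDimensional ℂ F] : ∃ G : Submodule ℂ H, FiniteDimensional ℂ G ∧ F ≤ G ∧
      (∀ j, ∀ v ∈ F, T j v ∈ G) ∧ finrank ℂ G ≤ (Fintype.card κ + 1) * finrank ℂ F := by
  classical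
  let S : Option κ → F →ₗ[ℂ] H := fun j => (j.elim 1 T : H →L[ℂ] H).toLinearMap ∘ₗ F.subtype
  let Φ : (Option κ → F) →ₗ[ℂ] H := LinearMap.lsum ℂ (fun _ => F) ℂ S
  have hΦ : ∀ j v, S j v ∈ LinearMap.range Φ := fun j v =>
    ⟨Pi.single j v, LinearMap.lsum_piSingle ..⟩
  refine ⟨LinearMap.range Φ, inferInstance, fun v hv => hΦ none ⟨v, hv⟩,
    fun j v hv => hΦ (some j) ⟨v, hv⟩, (LinearMap.finrank_range_le Φ).trans_eq ?_⟩
  simp [finrank_pi_fintype]

lemma exists_chain {κ : Type} [Fintype κ] (T : κ → H →L[ℂ] H) (F : Submodule ℂ H)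
    [FiniteDimensional ℂ F] : ∃ E : ℕ → Submodule ℂ H, E 0 = F ∧ (∀ n, FiniteDimensional ℂ (E n)) ∧
      Monotone E ∧ (∀ j n, ∀ v ∈ E n, T j v ∈ E (n + 1)) ∧
      ∀ n, finrank ℂ (E n) ≤ finrank ℂ F * (Fintype.card κ + 1) ^ n := by
  choose G h1 h2 h3 h4 using fun F : {F : Submodule ℂ H // FiniteDimensional ℂ F} =>
    @exists_step _ _ _ _ _ T F.1 F.2
  let E : ℕ → {F : Submodule ℂ H // FiniteDimensional ℂ F} := fun n =>
    Nat.rec ⟨F, ‹_›⟩ (fun _ F => ⟨G F, h1 F⟩) n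
  refine ⟨fun n => (E n).1, rfl, fun n => (E n).2, monotone_nat_of_le_succ fun n => h2 (E n),
    fun j n => h3 (E n) j, fun n => ?_⟩
  induction n with
  | zero => simp [E]
  | succ n ih =>
    refine (h4 (E n)).trans ((Nat.mul_le_mul_left _ ih).trans_eq ?_)
    ring

namespace IsNormedIdeal

variable (h : IsNormedIdeal ι)

/-- All pinchings of `T` off the subspace `E` have norm at most `ε`. -/
def Good (T : H →L[ℂ] H) (E : Submodule ℂ H) (ε : ℝ) : Prop :=
  ∀ (I : Type) [Fintype I] (x y e f : I → H), Bes x → Bes y → Bes e → Bes f → (∀ i, y i ∈ Eᗮ) →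
    ‖∑ i, (‖⟪y i, T (x i)⟫_ℂ‖ : ℂ) • h.r (e i) (f i)‖ ≤ ε

include h in
lemma exists_approx (a : J) {ε : ℝ} (hε : 0 < ε) : ∃ E : Submodule ℂ H, FiniteDimensional ℂ E ∧
    ∃ c : J, ‖c‖ ≤ ε ∧ ∀ y ∈ Eᗮ, ι a y = ι c y ∧ ∀ x, ⟪y, ι a x⟫_ℂ = ⟪y, ι c x⟫_ℂ := by
  obtain ⟨d, hd, hd'⟩ := h.dense.exists_dist_lt a hε
  have key : ∃ E : Submodule ℂ H, FiniteDimensional ℂ E ∧
      ∀ y ∈ Eᗮ, ι d y = 0 ∧ ∀ x, ⟪y, ι d x⟫_ℂ = 0 := by
    clear hd'
    induction hd using Submodule.span_induction with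
    | mem d hd =>
      obtain ⟨u, v, e⟩ := hd
      refine ⟨(ℂ ∙ u) ⊔ (ℂ ∙ v), inferInstance, fun y hy => ?_⟩
      rw [← Submodule.inf_orthogonal] at hy
      simp [e, Submodule.mem_orthogonal_singleton_iff_inner_left.1 hy.1,
        Submodule.mem_orthogonal_singleton_iff_inner_right.1 hy.2]
    | zero => exact ⟨⊥, inferInstance, fun y _ => by simp⟩
    | add d d' _ _ h1 h2 =>
      obtain ⟨E, _, h1⟩ := h1
      obtain ⟨E', _, h2⟩ := h2
      refine ⟨E ⊔ E', inferInstance, fun y hy => ?_⟩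
      rw [← Submodule.inf_orthogonal] at hy
      simp [h1 y hy.1, h2 y hy.2]
    | smul c d _ h1 =>
      obtain ⟨E, _, h1⟩ := h1
      exact ⟨E, ‹_›, fun y hy => by simp [h1 y hy]⟩
  obtain ⟨E, hE, key⟩ := key
  exact ⟨E, hE, a - d, by rw [← dist_eq_norm]; exact hd'.le,
    fun y hy => by simp [key y hy]⟩

lemma exists_good (a : J) {ε : ℝ} (hε : 0 < ε) :
    ∃ E : Submodule ℂ H, FiniteDimensional ℂ E ∧ h.Good (ι a) E ε := by
  obtain ⟨E, hE, c, hc, key⟩ := h.exists_approx a hε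
  refine ⟨E, hE, fun I _ x y e f hx hy he hf h0 => ?_⟩
  simp only [fun i => (key _ (h0 i)).2]
  exact (h.pinch_norm hx hy he hf c).trans hc

variable [CompleteSpace H]

lemma exists_good_adjoint (a : J) {ε : ℝ} (hε : 0 < ε) : ∃ E : Submodule ℂ H,
    FiniteDimensional ℂ E ∧ h.Good (ContinuousLinearMap.adjoint (ι a)) E ε := by
  obtain ⟨E, hE, c, hc, key⟩ := h.exists_approx a hε
  refine ⟨E, hE, fun I _ x y e f hx hy he hf h0 => ?_⟩
  simp only [ContinuousLinearMap.adjoint_inner_right, fun i => (key _ (h0 i)).1,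
    fun i => norm_inner_symm (𝕜 := ℂ) (ι c (y i)) (x i)]
  exact (h.pinch_norm hy hx he hf c).trans hc

lemma tail_le {b : ℕ → H} (hb : Orthonormal ℂ b) {κ : Type} [Fintype κ] (T : κ → H →L[ℂ] H)
    (F : Submodule ℂ H) [FiniteDimensional ℂ F] {ε δ : ℝ} (hδ : 0 < δ)
    (hT : ∀ j, h.Good (T j) F ε)
    (hF : ∀ E : Submodule ℂ H, FiniteDimensional ℂ E → F ≤ E → ∃ j,
      ∀ q : Fin (finrank ℂ E) → H, Frame E q → δ ≤ ∑ i, ‖Q E (T j (q i))‖) (M : ℕ) :
    δ / (Fintype.card κ + 2) *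
      ‖∑ k ∈ Ico (finrank ℂ F + 1) M, (1 / ((k : ℂ) + 1)) • h.r (b k) (b k)‖ ≤
        Fintype.card κ * ε := by
  classical
  obtain ⟨E, hE0, hEf, hE, hTE, hd⟩ := exists_chain T F
  set L := Fintype.card κ + 2 with hL
  let u : ℕ → ℕ := fun n => (finrank ℂ F + 1) * L ^ n
  have hus : ∀ n, u (n + 1) = L * u n := fun n => by simp only [u]; ring
  have hu0 : ∀ n, 0 < u n := fun n => by positivity
  have hu2 : ∀ n, 2 * u n ≤ u (n + 1) := fun n => by
    rw [hus]; exact Nat.mul_le_mul_right _ (by omega)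
  have hu : StrictMono u := strictMono_nat_of_lt_succ fun n => by
    have := hu0 n; have := hu2 n; omega
  let m : ℕ → ℕ := fun n => u (n + 1) - u n
  have hm : ∀ n, finrank ℂ (E n) ≤ m n := fun n => by
    have h1 : finrank ℂ (E n) ≤ u n := (hd n).trans (by
      simp only [u]; gcongr <;> omega)
    have := hu2 n
    simp only [m]; omega
  choose x y hy hB q hq hs using fun j => exists_blocks E hE (T j) (hTE j) m hm
  let s : ℕ → ℕ → ℝ := fun n i => ∑ j, ‖⟪y j n i, T j (x j n i)⟫_ℂ‖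
  have hs' : ∀ n, δ ≤ ∑ i : Fin (m n), s n i := fun n => by
    obtain ⟨j, hj⟩ := hF (E n) (hEf n) (hE0 ▸ hE n.zero_le)
    refine ((hj _ (hq j n)).trans_eq (hs j n)).trans (sum_le_sum fun i _ => ?_)
    exact single_le_sum (f := fun j => ‖⟪y j n i, T j (x j n i)⟫_ℂ‖) (fun _ _ => norm_nonneg _)
      (mem_univ j)
  let c : ℕ → ℝ := fun k => if k < M then 1 / ((k : ℝ) + 1) else 0
  let av : ℕ → ℝ := fun n => (∑ i : Fin (m n), s n i) / m n
  have hm0 : ∀ n, (0 : ℝ) < m n := fun n => by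
    have := hu0 n; have := hu2 n
    exact_mod_cast (by simp only [m]; omega : 0 < m n)
  have hav : ∀ n, 0 < av n := fun n => div_pos (hδ.trans_le (hs' n)) (hm0 n)
  have hL0 : (0 : ℝ) < L := by positivity
  let l : (Σ n : Fin M, Fin (m n)) → ℂ := fun p => (δ / L * c (u p.1 + p.2) / av p.1 : ℝ)
  have hl : ∀ p, ‖l p‖ ≤ 1 := fun p => by
    have h1 : 0 ≤ c (u p.1 + p.2) ∧ c (u p.1 + p.2) ≤ 1 / (u p.1 : ℝ) := by
      have : (0 : ℝ) < u p.1 := by exact_mod_cast hu0 _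
      simp only [c]
      split_ifs
      · refine ⟨by positivity, one_div_le_one_div_of_le this ?_⟩
        push_cast
        linarith [(Nat.cast_nonneg p.2 : (0 : ℝ) ≤ _)]
      · exact ⟨le_rfl, by positivity⟩
    have h2 : (m p.1 : ℝ) ≤ L * u p.1 := by
      exact_mod_cast (by simp only [m, hus]; omega : m p.1 ≤ L * u p.1)
    have h3 := hav p.1
    have h4 := h1.1
    rw [Complex.norm_real, Real.norm_of_nonneg (by positivity), div_le_one h3]
    calc _ ≤ δ / L * (1 / (u p.1 : ℝ)) := by gcongr; exact h1.2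
      _ = δ / (L * u p.1) := by rw [div_mul_div_comm, mul_one]
      _ ≤ _ := div_le_div₀ (hδ.le.trans (hs' _)) (hs' _) (hm0 _) h2
  have hb' := bes_of_orthonormal hb (blocks_injective hu.monotone M)
  have key := avg_blocks (K := Fin M) (m := fun n => m n)
    (fun p => h.r (l p • b (u p.1 + p.2)) (b (u p.1 + p.2))) (fun n i => s n i)
    (C := Fintype.card κ * ε) fun σ => by
      simp only [s, Complex.ofReal_sum, sum_smul]
      rw [sum_comm]
      refine (norm_sum_le _ _).trans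
        ((sum_le_sum (g := fun _ => ε) fun j _ => ?_).trans_eq (by simp))
      exact hT j _ _ _ _ _ ((hB j M).1.comp (Equiv.sigmaCongrRight σ))
        ((hB j M).2.comp (Equiv.sigmaCongrRight σ)) (hb'.smul hl) hb' fun p => hE0 ▸ hy j _ _
  refine le_of_eq_of_le ?_ key
  have e1 : ∑ k ∈ Ico (finrank ℂ F + 1) M, (1 / ((k : ℂ) + 1)) • h.r (b k) (b k) =
      ∑ k ∈ Ico (u 0) (u M), (c k : ℂ) • h.r (b k) (b k) := by
    rw [show u 0 = finrank ℂ F + 1 by simp [u],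
      ← sum_subset (Ico_subset_Ico_right (hu.le_apply (x := M))) fun k hk hk' => ?_]
    · exact sum_congr rfl fun k hk => by simp [c, (mem_Ico.1 hk).2]
    · have : ¬ k < M := fun hM => hk' (mem_Ico.2 ⟨(mem_Ico.1 hk).1, hM⟩)
      simp [c, this]
  rw [e1, ← sum_blocks hu.monotone (fun k => (c k : ℂ) • h.r (b k) (b k)),
    show δ / ((Fintype.card κ : ℝ) + 2) = ‖((δ / L : ℝ) : ℂ)‖ by
      rw [Complex.norm_real, Real.norm_of_nonneg (by positivity), hL]; push_cast; rfl,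
    ← norm_smul, smul_sum]
  congr 1
  refine sum_congr rfl fun p _ => ?_
  rw [h.r_smul_left, smul_smul, smul_smul]
  congr 1
  have h3 := (hav p.1).ne'
  rw [show (∑ k : Fin (m p.1), (s p.1 k : ℂ)) / (m p.1 : ℂ) = (av p.1 : ℂ) by
    simp only [av]; push_cast; rfl, ← Complex.ofReal_mul, ← Complex.ofReal_mul,
    mul_div_cancel₀ _ h3]

lemma exists_small [CompleteSpace J] {b : ℕ → H} (hb : Orthonormal ℂ b)
    (hh : ¬ ∃ a, ∀ k, ι a (b k) = (1 / ((k : ℂ) + 1)) • b k) {κ : Type} [Fintype κ]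
    (T : κ → H →L[ℂ] H)
    (hT : ∀ j ε, 0 < ε → ∃ E : Submodule ℂ H, FiniteDimensional ℂ E ∧ h.Good (T j) E ε)
    (F : Submodule ℂ H) [FiniteDimensional ℂ F] {δ : ℝ} (hδ : 0 < δ) :
    ∃ E : Submodule ℂ H, FiniteDimensional ℂ E ∧ F ≤ E ∧
      ∀ j, ∃ q : Fin (finrank ℂ E) → H, Frame E q ∧ ∑ i, ‖Q E (T j (q i))‖ < δ := by
  classical
  by_contra hF
  push Not at hF
  refine hh (h.harmonic_of_tail hb fun ε hε => ?_)
  set L : ℝ := Fintype.card κ + 2 with hL
  have hL0 : 0 < L := by positivity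
  choose G hG hG' using fun j => hT j (δ / L * ε / L) (by positivity)
  have key := h.tail_le hb T (F ⊔ ⨆ j, G j) hδ (ε := δ / L * ε / L)
    (fun j I _ x y e f hx hy he hf h0 => hG' j I x y e f hx hy he hf fun i =>
      Submodule.orthogonal_le (le_sup_of_le_right (le_iSup G j)) (h0 i))
    fun E hE h1 => hF E hE (le_sup_left.trans h1)
  refine ⟨finrank ℂ ↥(F ⊔ ⨆ j, G j) + 1, fun M => ?_⟩
  refine lt_of_mul_lt_mul_left ((key M).trans_lt ?_) (by positivity)
  rw [mul_div_assoc', div_lt_iff₀ hL0, mul_comm]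
  gcongr
  linarith

end IsNormedIdeal

end Pool.Agent.P.MP_98688b_an.N
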