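import Mathlib
import Pool.Agent.P.MP_98688b_an.N.Build

/-!
A Lorentz ideal: larger than the trace class, without the harmonic diagonal operator.
-/

namespace Pool.Agent.P.MP_98688b_an.N

open InnerProductSpace Finset

set_option maxSynthPendingDepth 3

/-- The weights. -/
noncomputable def wt (n : ℕ) : ℝ := 1 / ((Nat.log 2 (n + 1) : ℝ) + 1)

lemma wt_pos (n : ℕ) : 0 < wt n := by unfold wt; positivity

lemma wt_zero : wt 0 = 1 := by simp [wt]

lemma wt_anti : Antitone wt := fun m n h => by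
  unfold wt
  gcongr

lemma wt_pow (j : ℕ) : wt (2 ^ j) ≤ 1 / ((j : ℝ) + 1) := by
  have : j ≤ Nat.log 2 (2 ^ j + 1) := Nat.le_log_of_pow_le one_lt_two (Nat.le_succ _)
  unfold wt
  gcongr

lemma not_summable_wt : ¬ Summable fun n : ℕ => wt n * (1 / ((n : ℝ) + 1)) := fun h => by
  have h1 : Summable fun n : ℕ => 1 / ((Nat.log 2 n : ℝ) + 1) * (1 / (n : ℝ)) := by
    rw [← summable_nat_add_iff 1]
    simpa [wt] using h
  rw [← summable_condensed_iff_of_nonneg (fun _ => by positivity) fun m n hm hmn => by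
    gcongr] at h1
  refine Real.not_summable_one_div_natCast ((summable_nat_add_iff 1).1 (h1.congr fun k => ?_))
  rw [Nat.log_pow one_lt_two]
  push_cast
  field_simp

lemma sum_wt_le {n : ℕ} {t : Fin n → ℝ} {k : ℝ} (h0 : ∀ i, 0 ≤ t i) (h1 : ∀ i, t i ≤ 1)
    (h2 : ∑ i, t i ≤ k) (N : ℕ) : ∑ i : Fin n, wt i * t i ≤ N + k * wt N := by
  have h3 : ∀ i : Fin n, wt i * t i ≤ (if (i : ℕ) ∈ range N then 1 else 0) + t i * wt N :=
    fun i => by
    split_ifs with h
    · have := mul_le_mul ((wt_anti (Nat.zero_le i)).trans_eq wt_zero) (h1 i) (h0 i) zero_le_one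
      nlinarith [wt_pos N, h0 i]
    · rw [zero_add, mul_comm]
      exact mul_le_mul_of_nonneg_left (wt_anti (by simpa using h)) (h0 i)
  refine (sum_le_sum fun i _ => h3 i).trans ?_
  rw [sum_add_distrib, ← sum_mul,
    Fin.sum_univ_eq_sum_range (fun i => if i ∈ range N then (1 : ℝ) else 0), sum_ite_mem]
  refine add_le_add ?_ (mul_le_mul_of_nonneg_right h2 (wt_pos N).le)
  rw [sum_const, nsmul_one]
  exact_mod_cast (card_le_card inter_subset_right).trans_eq (card_range N)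

variable {H : Type} [NormedAddCommGroup H] [InnerProductSpace ℂ H]

variable (H) in
/-- The functionals defining the norm. -/
def tests : Set ((H →L[ℂ] H) →L[ℂ] ℂ) :=
  {g | ∀ (k : ℕ) (u v : Fin k → H), Bes u → Bes v → ∀ N : ℕ,
    ‖g (∑ i, rankOne ℂ (u i) (v i))‖ ≤ N + k * wt N}

lemma coef_le {k : ℕ} (u v : Fin k → H) (y x : H) :
    ‖coef y x (∑ i, rankOne ℂ (u i) (v i))‖ ≤ ∑ i, ‖⟪u i, y⟫_ℂ‖ * ‖⟪v i, x⟫_ℂ‖ := by
  rw [map_sum]
  refine (norm_sum_le _ _).trans_eq (sum_congr rfl fun i _ => ?_)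
  rw [coef_apply, inner_right_rankOne_apply, norm_mul, norm_inner_symm]

lemma diag_mem {b : ℕ → H} (hb : Orthonormal ℂ b) (n : ℕ) :
    ∑ i : Fin n, (wt i : ℂ) • coef (b i) (b i) ∈ tests H := fun k u v hu hv N => by
  have hb' := bes_of_orthonormal hb (f := fun i : Fin n => (i : ℕ)) Fin.val_injective
  rw [_root_.sum_apply]
  refine (norm_sum_le _ _).trans ((sum_le_sum fun i _ => ?_).trans (sum_wt_le
    (t := fun i => ∑ l, ‖⟪u l, b i⟫_ℂ‖ * ‖⟪v l, b i⟫_ℂ‖) (fun i => by positivity)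
    (fun i => (hu.sum_le hv _ _).trans_eq (by simp [hb.1])) ?_ N))
  · rw [smul_apply, norm_smul, Complex.norm_real, Real.norm_of_nonneg (wt_pos _).le]
    exact mul_le_mul_of_nonneg_left (coef_le ..) (wt_pos _).le
  · rw [sum_comm]
    refine (sum_le_sum (g := fun _ => 1) fun l _ => ?_).trans_eq (by simp)
    simp only [norm_inner_symm (u l), norm_inner_symm (v l)]
    exact (hb'.sum_le hb' _ _).trans (mul_le_one₀ (hu.norm_le l) (norm_nonneg _) (hv.norm_le l))

theorem exists_example [CompleteSpace H] {b : ℕ → H} (hb : Orthonormal ℂ b) :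
    ∃ (J : Type) (_ : NonUnitalNormedRing J) (_ : NormedSpace ℂ J) (_ : IsScalarTower ℂ J J)
      (_ : SMulCommClass ℂ J J) (_ : CompleteSpace J) (ι : J →ₗ[ℂ] H →L[ℂ] H), IsNormedIdeal ι ∧
      (∃ a, ¬ Summable fun n => ‖⟪b n, ι a (b n)⟫_ℂ‖) ∧
      ¬ ∃ a, ∀ n, ι a (b n) = (1 / ((n : ℂ) + 1)) • b n := by
  obtain ⟨J, j1, j2, j3, j4, j5, ι, h, k1, k2⟩ := exists_ideal (𝒯 := tests H)
    (fun g hg S T hS hT => ⟨g ∘L ContinuousLinearMap.mulLeftRight ℂ _ S T, fun k u v hu hv N => by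
      refine le_of_eq_of_le ?_ (hg k _ _ (hu.map hS) (hv.map (S := ContinuousLinearMap.adjoint T)
        (by rwa [LinearIsometryEquiv.norm_map])) N)
      simp only [ContinuousLinearMap.comp_apply, map_sum, ContinuousLinearMap.mulLeftRight_apply,
        ContinuousLinearMap.mul_def, comp_rankOne, rankOne_comp], fun _ => rfl⟩)
    fun g hg x y hx hy => by
      have e : ∀ z : H, ‖z‖ ≤ 1 → Bes fun _ : Fin 1 => z := fun z hz =>
        bes_of_orthogonal (fun _ => hz) fun i k h => (h (Subsingleton.elim i k)).elim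
      simpa [wt_zero] using hg 1 _ _ (e x hx) (e y hy) 0
  refine ⟨J, j1, j2, j3, j4, j5, ι, h, ?_, fun ⟨a, ha⟩ => not_summable_wt ?_⟩
  · by_contra hs
    push Not at hs
    obtain ⟨K, hK⟩ := banach_steinhaus
      (g := fun n : ℕ => (∑ i : Fin n, coef (b i) (b i)) ∘L h.incl) fun a =>
      ⟨∑' n, ‖⟪b n, ι a (b n)⟫_ℂ‖, fun n => by
        rw [ContinuousLinearMap.comp_apply, _root_.sum_apply]
        refine (norm_sum_le _ _).trans ?_
        rw [Fin.sum_univ_eq_sum_range (fun i => ‖coef (b i) (b i) (h.incl a)‖)]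
        exact (hs a).sum_le_tsum _ fun _ _ => norm_nonneg _⟩
    have hK0 : 0 ≤ K := (norm_nonneg _).trans (hK 0)
    obtain ⟨j, hj⟩ := exists_nat_gt (2 * K)
    obtain ⟨n, hn⟩ := exists_nat_gt (2 * (K * (1 + (2 ^ j : ℕ))))
    have hb' := bes_of_orthonormal hb (f := fun i : Fin n => (i : ℕ)) Fin.val_injective
    have e : ι (∑ i : Fin n, h.r (b i) (b i)) = ∑ i : Fin n, rankOne ℂ (b i) (b i) := by
      simp only [map_sum, h.ι_r]
    have h0 : (0 : ℝ) ≤ n := Nat.cast_nonneg n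
    have h1 : ‖∑ i : Fin n, h.r (b i) (b i)‖ ≤ 1 + ((2 ^ j : ℕ) + n * wt (2 ^ j)) := by
      have := wt_pos (2 ^ j)
      refine k2 _ _ ?_ fun g hg => ?_ <;> rw [e]
      · exact (hb'.norm_sum_rankOne_le hb').trans (le_add_of_nonneg_right (by positivity))
      · exact (hg n _ _ hb' hb' _).trans (le_add_of_nonneg_left zero_le_one)
    have h2 := (ContinuousLinearMap.le_opNorm _ _).trans
      (mul_le_mul (hK n) h1 (norm_nonneg _) hK0)
    have h3 : ((∑ i : Fin n, coef (b i) (b i)) ∘L h.incl) (∑ i : Fin n, h.r (b i) (b i)) = n := by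
      rw [ContinuousLinearMap.comp_apply, h.incl_apply, e]
      simp only [_root_.sum_apply, coef_apply, rankOne_apply, inner_sum, inner_smul_right]
      simp [orthonormal_iff_ite.1 hb, Fin.val_inj]
    rw [h3, Complex.norm_natCast] at h2
    have h4 : K * wt (2 ^ j) ≤ 1 / 2 := by
      refine (mul_le_mul_of_nonneg_left (wt_pow j) hK0).trans ?_
      rw [mul_one_div, div_le_iff₀ (by positivity)]
      linarith
    nlinarith [mul_le_mul_of_nonneg_left h4 h0]
  · refine summable_of_sum_range_le (c := ‖a‖) (fun n => by have := wt_pos n; positivity)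
      fun n => ?_
    refine le_trans ?_ (k1 a _ (diag_mem hb n))
    rw [← Fin.sum_univ_eq_sum_range (fun n => wt n * (1 / ((n : ℝ) + 1)))]
    refine (le_abs_self _).trans_eq ?_
    rw [← Real.norm_eq_abs, ← Complex.norm_real]
    simp [coef_apply, ha, hb.1]

end Pool.Agent.P.MP_98688b_an.N
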