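import Mathlib
import Pool.Agent.P.MP_98688b_an.AmpAbs

/-!
A consequence of bounded approximate semi-amenability, from a module of balanced bilinear forms.
-/

namespace Pool.Agent.P.MP_98688b_an.N

open Filter Topology

set_option maxSynthPendingDepth 3

universe u v

variable {J : Type} [NonUnitalNormedRing J] [NormedSpace ℂ J] [IsScalarTower ℂ J J]
  [SMulCommClass ℂ J J]

variable (J) in
/-- Balanced bilinear forms. -/
def Bal : Submodule ℂ (J →L[ℂ] J →L[ℂ] ℂ) where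
  carrier := {β | ∀ a c d, β (a * c) d = β a (c * d)}
  add_mem' {p q} hp hq a c d := by simp [hp a c d, hq a c d]
  zero_mem' a c d := by simp
  smul_mem' t p hp a c d := by simp [hp a c d]

omit [IsScalarTower ℂ J J] [SMulCommClass ℂ J J] in
lemma isClosed_bal : IsClosed (Bal J : Set (J →L[ℂ] J →L[ℂ] ℂ)) := by
  have : (Bal J : Set (J →L[ℂ] J →L[ℂ] ℂ)) = ⋂ a, ⋂ c, ⋂ d, {β | β (a * c) d = β a (c * d)} := by
    ext β
    simp only [Set.mem_iInter]
    rfl
  rw [this]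
  exact isClosed_iInter fun a => isClosed_iInter fun c => isClosed_iInter fun d =>
    isClosed_eq (by fun_prop) (by fun_prop)

omit [IsScalarTower ℂ J J] [SMulCommClass ℂ J J] in
lemma bal_ext {β γ : Bal J} (h : ∀ a c, β.1 a c = γ.1 a c) : β = γ :=
  Subtype.ext (ContinuousLinearMap.ext fun a => ContinuousLinearMap.ext (h a))

/-- The functional `c ↦ z (a * c)`. -/
noncomputable def lm : J →L[ℂ] StrongDual ℂ J →L[ℂ] StrongDual ℂ J :=
  (ContinuousLinearMap.compL ℂ J J ℂ).flip ∘L ContinuousLinearMap.mul ℂ J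

/-- The functional `c ↦ z (c * a)`. -/
noncomputable def rm : J →L[ℂ] StrongDual ℂ J →L[ℂ] StrongDual ℂ J :=
  (ContinuousLinearMap.compL ℂ J J ℂ).flip ∘L (ContinuousLinearMap.mul ℂ J).flip

lemma lm_apply (a : J) (z : StrongDual ℂ J) (c : J) : lm a z c = z (a * c) := rfl

lemma rm_apply (a : J) (z : StrongDual ℂ J) (c : J) : rm a z c = z (c * a) := rfl

/-- The left action on balanced forms. -/
noncomputable def balL : J →L[ℂ] Bal J →L[ℂ] Bal J :=
  LinearMap.mkContinuous₂ (LinearMap.mk₂ ℂ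
    (fun a β => (⟨rm a ∘L β.1, fun c d e => (β.2 c d (e * a)).trans
      (congrArg _ (mul_assoc d e a).symm)⟩ : Bal J))
    (fun a a' β => bal_ext fun c d => by simp [rm_apply])
    (fun t a β => bal_ext fun c d => by simp [rm_apply])
    (fun a β γ => bal_ext fun c d => by simp [rm_apply])
    (fun t a β => bal_ext fun c d => by simp [rm_apply])) 1 fun a β => by
      refine ContinuousLinearMap.opNorm_le_bound₂ _ (by positivity) fun c d =>
        (β.1.le_opNorm₂ c (d * a)).trans ?_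
      calc _ ≤ ‖β.1‖ * ‖c‖ * (‖d‖ * ‖a‖) := by gcongr; exact norm_mul_le _ _
        _ = 1 * ‖a‖ * ‖β.1‖ * ‖c‖ * ‖d‖ := by ring

/-- The balanced form `(a, c) ↦ z (a * c)`. -/
noncomputable def toBal : StrongDual ℂ J →L[ℂ] Bal J :=
  (lm (J := J)).flip.codRestrict (Bal J) fun z a c d => congrArg z (mul_assoc a c d)

/-- Composition of a bilinear map with two linear maps. -/
noncomputable def sw {X : Type u} {V W : Type} [NormedAddCommGroup X] [NormedSpace ℂ X]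
    [NormedAddCommGroup V] [NormedSpace ℂ V] [NormedAddCommGroup W] [NormedSpace ℂ W]
    (g : W →L[ℂ] X) (T : J →L[ℂ] V →L[ℂ] W) (f : X →L[ℂ] V) : J →L[ℂ] X →L[ℂ] X :=
  ContinuousLinearMap.compL ℂ X W X g ∘L (ContinuousLinearMap.compL ℂ X V W).flip f ∘L T

lemma exists_biduals_aux (hJ : IsBddApproxSemiAmenable.{u, v} J) {B : Type}
    [NormedAddCommGroup B] [NormedSpace ℂ B] [CompleteSpace B] (ev : B →L[ℂ] J →L[ℂ] J →L[ℂ] ℂ)
    (act : J →L[ℂ] B →L[ℂ] B) (k : StrongDual ℂ J →L[ℂ] B) (h0 : ∀ β, ‖β‖ = ‖ev β‖)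
    (h1 : ∀ β γ, (∀ c d, ev β c d = ev γ c d) → β = γ)
    (h2 : ∀ β a c d, ev β (a * c) d = ev β a (c * d))
    (h3 : ∀ a β c d, ev (act a β) c d = ev β c (d * a)) (h4 : ∀ z a c, ev (k z) a c = z (a * c)) :
    ∃ K : ℝ, 0 < K ∧ ∀ (F : Finset J) (ε : ℝ), 0 < ε → ∃ Φ Ψ : StrongDual ℂ (StrongDual ℂ J),
      (∀ a ∈ F, ∀ z, ‖Φ (lm a z) - z a‖ ≤ ε * ‖z‖) ∧
      ∀ (a : J) (z : StrongDual ℂ J) (C : ℝ), 0 ≤ C → (∀ c d, ‖z (c * d)‖ ≤ C * ‖c‖ * ‖d‖) →
        ‖Φ (lm a z) - Ψ (rm a z)‖ ≤ K * ‖a‖ * C := by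
  let e : ULift.{u} (StrongDual ℂ J × B) ≃L[ℂ] StrongDual ℂ J × B := ContinuousLinearEquiv.ulift
  let p1 := ContinuousLinearMap.fst ℂ _ _ ∘L e.toContinuousLinearMap
  let p2 := ContinuousLinearMap.snd ℂ _ _ ∘L e.toContinuousLinearMap
  let i1 := e.symm.toContinuousLinearMap ∘L ContinuousLinearMap.inl ℂ _ _
  let i2 := e.symm.toContinuousLinearMap ∘L ContinuousLinearMap.inr ℂ _ _
  let fl := (ContinuousLinearMap.flipₗᵢ ℂ J J ℂ).toContinuousLinearEquiv.toContinuousLinearMap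
  let R := sw i1 lm p1 + sw i1 ev.flip p2
  let L := sw i1 (-(fl ∘L ev).flip) p2 + sw i2 act p2
  have ext : ∀ x y : ULift.{u} (StrongDual ℂ J × B), (∀ c, x.down.1 c = y.down.1 c) →
      x.down.2 = y.down.2 → x = y := fun x y h1 h2 =>
    ULift.ext _ _ (Prod.ext (ContinuousLinearMap.ext h1) h2)
  have R1 : ∀ a x c, (R a x).down.1 c = x.down.1 (a * c) + ev x.down.2 a c := fun _ _ _ => rfl
  have R2 : ∀ a x, (R a x).down.2 = 0 := fun _ _ => add_zero _
  have L1 : ∀ a x c, (L a x).down.1 c = -ev x.down.2 c a := fun _ _ _ => add_zero _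
  have L2 : ∀ a x, (L a x).down.2 = act a x.down.2 := fun _ _ => zero_add _
  let M : Bimodule J (ULift.{u} (StrongDual ℂ J × B)) :=
    ⟨L, R, fun a c x => ext _ _ (fun d => by rw [L1, L1, L2, h3]) (h1 _ _ fun d d' => by
        rw [L2, L2, L2, h3, h3, h3, mul_assoc]),
      fun a c x => ext _ _ (fun d => by simp [R1, R2, mul_assoc, h2]) (by rw [R2, R2]),
      fun a c x => ext _ _ (fun d => by simp [L1, R1, R2, L2, h2, h3]) (by simp [L2, R2])⟩
  have hD : M.IsDerivation p1.flip := fun a c => by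
    ext1 x
    show x.down.1 (a * c) = (R a x).down.1 c + (L c x).down.1 a
    rw [R1, L1, add_neg_cancel_right]
  obtain ⟨I, _, _, _, ξ, η, hlim, K, hK, hbd⟩ := hJ _ M _ hD
  refine ⟨K, hK, fun F ε hε => ?_⟩
  obtain ⟨j, hj⟩ := Bimodule.fin_of_net hlim F hε
  refine ⟨ξ j ∘L i1, η j ∘L (i2 ∘L k - i1), fun a ha z => ?_, fun a z C hC hz => ?_⟩
  · have e0 : (i1 z).down.2 = 0 := rfl
    have e1 : M.right a (i1 z) = i1 (lm a z) :=
      ext _ _ (fun c => (R1 _ _ _).trans (by simp [e0]; rfl)) (R2 _ _)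
    have e2 : M.left a (i1 z) = 0 :=
      ext _ _ (fun c => (L1 _ _ _).trans (by simp [e0])) ((L2 _ _).trans (map_zero _))
    have e3 := (M.ad (ξ j) (η j) a - p1.flip a).le_opNorm (i1 z)
    rw [sub_apply, M.ad_apply, e1, e2, map_zero, sub_zero,
      show ‖i1 z‖ = ‖z‖ from max_eq_left ((norm_zero (E := B)).trans_le (norm_nonneg _))] at e3
    exact e3.trans (mul_le_mul_of_nonneg_right (hj a ha).le (norm_nonneg _))
  · have e1 : M.right a (i2 (k z)) = i1 (lm a z) :=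
      ext _ _ (fun c => (R1 _ _ _).trans ((zero_add _).trans (h4 z a c))) (R2 _ _)
    have e2 : M.left a (i2 (k z)) = (i2 ∘L k - i1) (rm a z) :=
      ext _ _ (fun c => (L1 _ _ _).trans ((congrArg _ (h4 z c a)).trans (zero_sub _).symm))
        ((L2 _ _).trans ((h1 (act a (k z)) (k (rm a z)) fun c d => by
          rw [h3, h4, h4, rm_apply, mul_assoc]).trans (sub_zero _).symm))
    have e3 := (M.ad (ξ j) (η j) a).le_opNorm (i2 (k z))
    rw [M.ad_apply, e1, e2] at e3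
    refine e3.trans (mul_le_mul (hbd j a) (max_le ?_ ?_) (norm_nonneg _) (by positivity))
    · exact (norm_zero (E := StrongDual ℂ J)).trans_le hC
    · exact (h0 (k z)).trans_le (ContinuousLinearMap.opNorm_le_bound₂ _ hC fun c d => by
        rw [h4]; exact hz c d)

theorem exists_biduals (hJ : IsBddApproxSemiAmenable.{u, v} J) :
    ∃ K : ℝ, 0 < K ∧ ∀ (F : Finset J) (ε : ℝ), 0 < ε → ∃ Φ Ψ : StrongDual ℂ (StrongDual ℂ J),
      (∀ a ∈ F, ∀ z, ‖Φ (lm a z) - z a‖ ≤ ε * ‖z‖) ∧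
      ∀ (a : J) (z : StrongDual ℂ J) (C : ℝ), 0 ≤ C → (∀ c d, ‖z (c * d)‖ ≤ C * ‖c‖ * ‖d‖) →
        ‖Φ (lm a z) - Ψ (rm a z)‖ ≤ K * ‖a‖ * C :=
  have := (isClosed_bal (J := J)).completeSpace_coe
  exists_biduals_aux hJ (Bal J).subtypeL balL toBal (fun _ => rfl) (fun _ _ => bal_ext)
    (fun β => β.2) (fun _ _ _ _ => rfl) fun _ _ _ => rfl

end Pool.Agent.P.MP_98688b_an.N
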