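import Mathlib
import Pool.Agent.P.MP_98688b_an.N.Basic
import Pool.Agent.P.MP_98688b_an.N.Frame
import Pool.Agent.P.MP_98688b_an.N.Module

/-!
A boundedly approximately semi-amenable normed ideal without the harmonic diagonal operator
consists of trace class operators.
-/

namespace Pool.Agent.P.MP_98688b_an.N

open InnerProductSpace Finset Filter Topology Module

set_option maxSynthPendingDepth 3

universe u v

variable {H : Type} [NormedAddCommGroup H] [InnerProductSpace ℂ H]
  {J : Type} [NonUnitalNormedRing J] [NormedSpace ℂ J] {ι : J →ₗ[ℂ] H →L[ℂ] H}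

lemma frame_span {n : ℕ} {q : Fin n → H} (hq : Orthonormal ℂ q) :
    Frame (Submodule.span ℂ (Set.range q)) q :=
  ⟨hq, fun i => Submodule.subset_span ⟨i, rfl⟩, fun w hw => by
    obtain ⟨c, rfl⟩ := (Submodule.mem_span_range_iff_exists_fun ℂ).1 hw
    simp only [hq.inner_right_fintype]⟩

namespace IsNormedIdeal

variable (h : IsNormedIdeal ι) {b : ℕ → H}

variable (b) in
/-- The norm of a projection of rank `n`. -/
noncomputable def phi (n : ℕ) : ℝ := ‖∑ i : Fin n, h.r (b i) (b i)‖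

lemma phi_nonneg (n : ℕ) : 0 ≤ h.phi b n := norm_nonneg _

variable (hb : Orthonormal ℂ b)
include hb

lemma phi_le {I : Type} [Fintype I] {x y : I → H} (hx : Bes x) (hy : Bes y) (a : J) {θ : ℝ}
    (hθ : 0 < θ) (h1 : ∀ i, θ ≤ ‖⟪y i, ι a (x i)⟫_ℂ‖) {n : ℕ} (hn : n ≤ Fintype.card I) :
    θ * h.phi b n ≤ ‖a‖ := by
  obtain ⟨j⟩ : Nonempty (Fin n ↪ I) := Function.Embedding.nonempty_of_card_le (by simpa using hn)
  have hb' := bes_of_orthonormal hb (f := fun i : Fin n => (i : ℕ)) Fin.val_injective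
  refine le_of_eq_of_le ?_ (h.pinch (hx.comp_injective j.injective) (hy.comp_injective j.injective)
    (hb'.smul (c := fun i => (θ : ℂ) / ⟪y (j i), ι a (x (j i))⟫_ℂ) fun i => ?_) hb' a)
  · refine (show _ = ‖(θ : ℂ) • ∑ i : Fin n, h.r (b i) (b i)‖ by
      rw [norm_smul, Complex.norm_real, Real.norm_of_nonneg hθ.le, phi]).trans ?_
    rw [smul_sum]
    congr 1
    refine sum_congr rfl fun i _ => ?_
    rw [h.r_smul_left, smul_smul, mul_div_cancel₀ _ (norm_pos_iff.1 (hθ.trans_le (h1 _)))]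
  · rw [norm_div, Complex.norm_real, Real.norm_of_nonneg hθ.le]
    exact div_le_one_of_le₀ (h1 _) (norm_nonneg _)

lemma phi_pos {n : ℕ} (hn : 0 < n) : 0 < h.phi b n := by
  have e := h.inner_le (∑ i : Fin n, h.r (b i) (b i)) (b (⟨0, hn⟩ : Fin n)) (b (⟨0, hn⟩ : Fin n))
  simp only [map_sum, h.ι_r, _root_.sum_apply, rankOne_apply, inner_sum, inner_smul_right,
    orthonormal_iff_ite.1 hb, hb.1, mul_one] at e
  exact lt_of_lt_of_le (by simp [← Fin.ext_iff (a := ⟨0, hn⟩)]) e

lemma diag_le {I : Type} [Fintype I] {j : I → ℕ} (hj : Function.Injective j) {e f : I → H}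
    (he : Bes e) (hf : Bes f) : ‖∑ i, h.r (e i) (f i)‖ ≤ ‖∑ i, h.r (b (j i)) (b (j i))‖ := by
  classical
  have hb' := bes_of_orthonormal hb hj
  refine le_of_eq_of_le ?_ (h.pinch hb' hb' he hf _)
  simp only [map_sum, h.ι_r, _root_.sum_apply, rankOne_apply, inner_sum, inner_smul_right]
  simp [orthonormal_iff_ite.1 hb, hj.eq_iff]

lemma phi_unbounded [CompleteSpace J]
    (hh : ¬ ∃ a, ∀ k, ι a (b k) = (1 / ((k : ℂ) + 1)) • b k) (C : ℝ) : ∃ N, C < h.phi b N := by
  by_contra hC
  push Not at hC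
  have hC0 : 0 ≤ C := (h.phi_nonneg 0).trans (hC 0)
  refine hh (h.harmonic_of_tail hb fun ε hε => ?_)
  obtain ⟨d, hd⟩ := exists_nat_gt (C / ε)
  refine ⟨d, fun M => ?_⟩
  have hb' := bes_of_orthonormal hb (f := fun i : Fin M => (i : ℕ)) Fin.val_injective
  have key := (h.diag_le hb Fin.val_injective (hb'.smul
    (c := fun i => if (i : ℕ) ∈ Ico d M then ((d : ℂ) + 1) * (1 / ((i : ℂ) + 1)) else 0)
    fun i => ?_) hb').trans (hC M)
  · simp only [h.r_smul_left] at key
    simp only [ite_smul, zero_smul, mul_smul] at key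
    rw [Fin.sum_univ_eq_sum_range (fun i => if i ∈ Ico d M then
      ((d : ℂ) + 1) • (1 / ((i : ℂ) + 1)) • h.r (b i) (b i) else 0), sum_ite_mem,
      inter_eq_right.2 fun i hi => mem_range.2 (mem_Ico.1 hi).2, ← smul_sum, norm_smul,
      show ‖(d : ℂ) + 1‖ = d + 1 by exact_mod_cast Complex.norm_natCast (d + 1)] at key
    rw [div_lt_iff₀ hε] at hd
    refine lt_of_mul_lt_mul_left (key.trans_lt (by linarith)) (by positivity : (0 : ℝ) ≤ d + 1)
  · split_ifs with hi
    · rw [mul_one_div, norm_div,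
        show ‖(d : ℂ) + 1‖ = d + 1 by exact_mod_cast Complex.norm_natCast (d + 1),
        show ‖((i : ℕ) : ℂ) + 1‖ = (i : ℕ) + 1 by exact_mod_cast Complex.norm_natCast (i + 1)]
      refine div_le_one_of_le₀ ?_ (by positivity)
      exact_mod_cast Nat.succ_le_succ (mem_Ico.1 hi).1
    · simp

/-- An element of the bidual is small on infinitely many diagonal coefficients. -/
lemma exists_far (hφ : ∀ C, ∃ N, C < h.phi b N) (Ψ : StrongDual ℂ (StrongDual ℂ J)) :
    ∃ f : ℕ → ℕ, Function.Injective f ∧ ∀ i, ‖Ψ (coef (b (f i)) (b (f i)) ∘L h.incl)‖ ≤ 1 / 4 := by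
  have hfin : {n | 1 / 4 < ‖Ψ (coef (b n) (b n) ∘L h.incl)‖}.Finite := by
    by_contra hinf
    obtain ⟨N, hN⟩ := hφ (4 * ‖Ψ‖)
    have hN0 : 0 < h.phi b N := lt_of_le_of_lt (by positivity) hN
    have hN1 : (0 : ℝ) < N := by
      rcases N.eq_zero_or_pos with rfl | hN1
      · simp [phi] at hN0
      · exact_mod_cast hN1
    let j : Fin N → ℕ := fun i => Set.Infinite.natEmbedding _ hinf i
    have hj : Function.Injective j := (Subtype.val_injective.comp
      (Set.Infinite.natEmbedding _ hinf).injective).comp Fin.val_injective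
    choose c hc hc' using fun n => Complex.exists_norm_eq_mul_self
      (Ψ (coef (b n) (b n) ∘L h.incl))
    have h1 : ‖∑ i, c (j i) • (coef (b (j i)) (b (j i)) ∘L h.incl)‖ ≤ N / h.phi b N := by
      refine ContinuousLinearMap.opNorm_le_bound _ (by positivity) fun a => ?_
      have hb1 := bes_of_orthonormal hb hj
      have hb2 := bes_of_orthonormal hb (f := fun i : Fin N => (i : ℕ)) Fin.val_injective
      have := h.sum_mul_le hb1 hb1 hb2 hb2 a
      rw [Fintype.card_fin] at this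
      rw [div_mul_eq_mul_div, le_div_iff₀ hN0]
      refine le_trans (mul_le_mul_of_nonneg_right ?_ hN0.le) this
      rw [_root_.sum_apply]
      refine (norm_sum_le _ _).trans_eq (sum_congr rfl fun i _ => ?_)
      rw [smul_apply, norm_smul, hc, one_mul]
      rfl
    have h2 := (Ψ.le_opNorm _).trans (mul_le_mul_of_nonneg_left h1 (norm_nonneg _))
    simp only [map_sum, map_smul, smul_eq_mul, ← hc', ← Complex.ofReal_sum, Complex.norm_real] at h2
    have h3 := (card_nsmul_le_sum univ _ (1 / 4 : ℝ) fun i _ =>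
      le_of_lt (Set.Infinite.natEmbedding _ hinf (i : Fin N)).2).trans ((le_abs_self _).trans h2)
    rw [card_univ, Fintype.card_fin, nsmul_eq_mul, mul_div_assoc' ‖Ψ‖, le_div_iff₀ hN0] at h3
    nlinarith
  exact ⟨fun i => hfin.infinite_compl.natEmbedding _ i,
    Subtype.val_injective.comp (hfin.infinite_compl.natEmbedding _).injective,
    fun i => not_lt.1 (hfin.infinite_compl.natEmbedding _ i).2⟩

variable [CompleteSpace H]

lemma trace_mul_le {N : ℕ} (hN : 0 < h.phi b N) {m : ℕ} {f : Fin m → H} (hf : Bes f) (a c : J) :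
    ‖∑ i : Fin m, ⟪f i, ι a (ι c (b i))⟫_ℂ‖ * h.phi b m ≤
      (N * h.phi b m + 2 * m / h.phi b N) * ‖a‖ * ‖c‖ := by
  classical
  rcases eq_or_ne c 0 with rfl | hc
  · simp
  have hc0 := norm_pos_iff.2 hc
  have hb1 : Orthonormal ℂ fun i : Fin m => b i := hb.comp _ Fin.val_injective
  have hb2 := bes_of_orthonormal hb (f := fun i : Fin m => (i : ℕ)) Fin.val_injective
  have : FiniteDimensional ℂ (Submodule.span ℂ (Set.range fun i : Fin m => b i)) :=
    FiniteDimensional.span_of_finite ℂ (Set.finite_range _)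
  obtain ⟨x, hx, ho, -⟩ := exists_svd _ (ι c)
    ((finrank_span_eq_card hb1.linearIndependent).trans (Fintype.card_fin m))
  have hx' := bes_of_orthonormal hx.on Function.injective_id
  set W := ∑ i : Fin m, InnerProductSpace.rankOne ℂ (f i) (b i) with hW
  have hW1 : ‖W‖ ≤ 1 := hf.norm_sum_rankOne_le hb2
  have hW2 : ∀ i : Fin m, W (b i) = f i := fun i => by
    simp [hW, orthonormal_iff_ite.1 hb, Fin.val_inj]
  have e := frame_left (innerₛₗ ℂ).flip (frame_span hb1) hx
    (ContinuousLinearMap.adjoint W ∘L ι a ∘L ι c)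
  simp only [LinearMap.flip_apply, innerₛₗ_apply_apply, ContinuousLinearMap.comp_apply,
    ContinuousLinearMap.adjoint_inner_right, hW2] at e
  set θ := 2 * ‖c‖ / h.phi b N with hθ
  have hθ0 : 0 < θ := by positivity
  have h1 : (univ.filter fun k => θ ≤ ‖ι c (x k)‖).card ≤ N := by
    by_contra hlt
    have := h.phi_le hb (I := {k // θ ≤ ‖ι c (x k)‖}) (hx'.comp_injective Subtype.val_injective)
      (y := fun k => ((‖ι c (x k)‖⁻¹ : ℝ) : ℂ) • ι c (x k))
      (bes_of_orthogonal (fun k => ?_) fun k l hkl => ?_) c hθ0 (fun k => ?_) (n := N)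
      (by rw [Fintype.card_subtype]; omega)
    · rw [hθ, div_mul_cancel₀ _ hN.ne'] at this
      linarith
    · rw [norm_smul, Complex.norm_real, norm_inv, norm_norm]
      exact inv_mul_le_one_of_le₀ le_rfl (norm_nonneg _)
    · rw [inner_smul_left, inner_smul_right, ho _ _ (Subtype.val_injective.ne hkl), mul_zero,
        mul_zero]
    · rw [inner_smul_left, norm_mul, RCLike.norm_conj, Complex.norm_real, norm_inv, norm_norm, id,
        inner_self_eq_norm_sq_to_K, norm_pow, RCLike.norm_ofReal, abs_norm, sq,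
        inv_mul_cancel_left₀ (hθ0.trans_le k.2).ne']
      exact k.2
  let z : Fin m → H := fun k => if θ ≤ ‖ι c (x k)‖ then 0 else ((θ⁻¹ : ℝ) : ℂ) • ι c (x k)
  have hz : Bes z := by
    refine bes_of_orthogonal (fun k => ?_) fun k l hkl => ?_
    · simp only [z]
      split_ifs with hk
      · simp
      · rw [norm_smul, Complex.norm_real, Real.norm_of_nonneg (by positivity)]
        exact inv_mul_le_one_of_le₀ (not_le.1 hk).le hθ0.le
    · simp only [z]
      split_ifs <;> simp [ho _ _ hkl]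
  have h2 : ∀ k, ‖⟪W (x k), ι a (ι c (x k))⟫_ℂ‖ ≤
      (if θ ≤ ‖ι c (x k)‖ then ‖a‖ * ‖c‖ else 0) + θ * ‖⟪W (x k), ι a (z k)⟫_ℂ‖ := fun k => by
    simp only [z]
    split_ifs with hk
    · have e1 := h.inner_le (a * c) (x k) (W (x k))
      rw [h.map_mul, hx.on.1, mul_one] at e1
      refine (e1.trans ?_).trans (le_add_of_nonneg_right (by positivity))
      exact (mul_le_of_le_one_right (norm_nonneg _) ((hx'.map hW1).norm_le k)).trans
        (norm_mul_le _ _)
    · rw [map_smul, inner_smul_right, norm_mul, Complex.norm_real,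
        Real.norm_of_nonneg (by positivity), mul_inv_cancel_left₀ hθ0.ne', zero_add]
  have h3 := h.sum_mul_le hz (hx'.map hW1) hb2 hb2 a
  rw [Fintype.card_fin] at h3
  have h4 := (norm_sum_le _ _).trans (sum_le_sum fun k (_ : k ∈ univ) => h2 k)
  rw [sum_add_distrib, ← mul_sum, ← sum_filter, sum_const, nsmul_eq_mul] at h4
  have h5 := h.phi_nonneg (b := b) m
  rw [e]
  calc _ ≤ (N * (‖a‖ * ‖c‖) + θ * ∑ k, ‖⟪W (x k), ι a (z k)⟫_ℂ‖) * h.phi b m := by
        gcongr
        refine h4.trans ?_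
        gcongr
    _ = N * (‖a‖ * ‖c‖) * h.phi b m + θ * ((∑ k, ‖⟪W (x k), ι a (z k)⟫_ℂ‖) * h.phi b m) := by ring
    _ ≤ N * (‖a‖ * ‖c‖) * h.phi b m + θ * (m * ‖a‖) :=
        add_le_add_right (mul_le_mul_of_nonneg_left h3 hθ0.le) _
    _ = _ := by rw [hθ]; ring

include h in
theorem summable_of_bdd [CompleteSpace J] [IsScalarTower ℂ J J] [SMulCommClass ℂ J J]
    (hh : ¬ ∃ a, ∀ k, ι a (b k) = (1 / ((k : ℂ) + 1)) • b k)
    (hJ : IsBddApproxSemiAmenable.{u, v} J) (a : J) : Summable fun n => ‖⟪b n, ι a (b n)⟫_ℂ‖ := by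
  classical
  obtain ⟨K, hK, H0⟩ := exists_biduals hJ
  have hφ := h.phi_unbounded hb hh
  obtain ⟨N, hN⟩ := hφ (8 * K)
  have hN0 : 0 < h.phi b N := lt_trans (by positivity) hN
  refine summable_of_sum_range_le (c := 4 * K * N * ‖a‖) (fun _ => norm_nonneg _) fun m => ?_
  obtain ⟨Φ, Ψ, H1, H2⟩ := H0 ((range m).image fun i => h.r (b i) (b i)) (1 / 4) (by norm_num)
  obtain ⟨f, hf, h2⟩ := h.exists_far hb hφ Ψ
  have hb1 := bes_of_orthonormal hb (f := fun i : Fin m => (i : ℕ)) Fin.val_injective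
  have hb2 := bes_of_orthonormal hb (f := fun i : Fin m => f i) (hf.comp Fin.val_injective)
  have h1 : ∀ i : Fin m, ‖Φ (coef (b i) (b i) ∘L h.incl) - 1‖ ≤ 1 / 4 := fun i => by
    have e := H1 _ (mem_image_of_mem _ (mem_range.2 i.2)) (coef (b i) (b i) ∘L h.incl)
    have e1 : lm (h.r (b i) (b i)) (coef (b i) (b i) ∘L h.incl) = coef (b i) (b i) ∘L h.incl := by
      ext c
      simp [lm_apply, coef_apply, h.incl_apply, h.map_mul, h.ι_r, hb.1]
    have e2 : ‖coef (b i) (b i) ∘L h.incl‖ ≤ 1 := ContinuousLinearMap.opNorm_le_bound _ zero_le_one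
      fun c => (h.inner_le c (b i) (b i)).trans_eq (by simp [hb.1])
    rw [e1, show (coef (b i) (b i) ∘L h.incl) (h.r (b i) (b i)) = 1 by
      simp [coef_apply, h.incl_apply, h.ι_r, hb.1]] at e
    exact e.trans (mul_le_of_le_one_right (by norm_num) e2)
  have h5 := h.phi_nonneg (b := b) m
  have key := H2 (∑ i : Fin m, h.r (b (f i)) (b i))
    ((h.phi b m : ℂ) • ∑ i : Fin m, coef (b (f i)) (b i) ∘L h.incl)
    (N * h.phi b m + 2 * m / h.phi b N) (by positivity) fun c d => by
      refine le_of_eq_of_le ?_ (h.trace_mul_le hb hN0 hb2 c d)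
      simp only [smul_apply, norm_smul, Complex.norm_real, Real.norm_of_nonneg h5,
        _root_.sum_apply, ContinuousLinearMap.comp_apply, coef_apply, h.incl_apply, h.map_mul]
      exact mul_comm _ _
  have e1 : lm (∑ i : Fin m, h.r (b (f i)) (b i)) (∑ i : Fin m, coef (b (f i)) (b i) ∘L h.incl) =
      ∑ i : Fin m, coef (b i) (b i) ∘L h.incl := by
    ext c
    simp only [lm_apply, _root_.sum_apply, ContinuousLinearMap.comp_apply, coef_apply,
      h.incl_apply, h.map_mul, map_sum ι, h.ι_r, mul_apply_eq_comp, rankOne_apply, inner_sum,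
      inner_smul_right]
    simp [orthonormal_iff_ite.1 hb, hf.eq_iff, Fin.val_inj]
  have e2 : rm (∑ i : Fin m, h.r (b (f i)) (b i)) (∑ i : Fin m, coef (b (f i)) (b i) ∘L h.incl) =
      ∑ i : Fin m, coef (b (f i)) (b (f i)) ∘L h.incl := by
    ext c
    simp only [rm_apply, _root_.sum_apply, ContinuousLinearMap.comp_apply, coef_apply,
      h.incl_apply, h.map_mul, map_sum ι, h.ι_r, mul_apply_eq_comp, rankOne_apply]
    simp [orthonormal_iff_ite.1 hb, Fin.val_inj]
  simp only [map_smul] at key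
  rw [e1, e2, ← smul_sub, norm_smul, Complex.norm_real,
    Real.norm_of_nonneg h5, map_sum, map_sum, ← sum_sub_distrib] at key
  have h3 : (m : ℝ) / 2 ≤ ‖∑ i : Fin m, (Φ (coef (b i) (b i) ∘L h.incl) -
      Ψ (coef (b (f i)) (b (f i)) ∘L h.incl))‖ := by
    refine le_trans ?_ (Complex.re_le_norm _)
    rw [Complex.re_sum]
    refine le_of_eq_of_le (by simp; ring) (card_nsmul_le_sum univ _ (1 / 2 : ℝ) fun i _ => ?_)
    have e1 := (Complex.abs_re_le_norm _).trans (h1 i)
    have e2 := (Complex.abs_re_le_norm _).trans (h2 i)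
    rw [Complex.sub_re, Complex.one_re] at e1
    rw [Complex.sub_re]
    linarith [(abs_le.1 e1).1, (abs_le.1 e2).2]
  have h4 : ‖∑ i : Fin m, h.r (b (f i)) (b i)‖ ≤ h.phi b m := h.diag_le hb Fin.val_injective hb2 hb1
  have h6 := h.sum_mul_le hb1 hb1 hb1 hb1 a
  rw [Fintype.card_fin] at h6
  rw [← Fin.sum_univ_eq_sum_range (fun i => ‖⟪b i, ι a (b i)⟫_ℂ‖)]
  rcases m.eq_zero_or_pos with rfl | hm
  · rw [Fintype.sum_empty]; positivity
  have h7 : 0 < h.phi b m := h.phi_pos hb hm
  have h8 : (m : ℝ) / 2 ≤ K * (N * h.phi b m + 2 * m / h.phi b N) := by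
    refine le_of_mul_le_mul_left (((mul_le_mul_of_nonneg_left h3 h5).trans key).trans ?_) h7
    calc _ ≤ K * h.phi b m * (N * h.phi b m + 2 * m / h.phi b N) := by gcongr
      _ = _ := by ring
  have h9 : K * (2 * m / h.phi b N) ≤ m / 4 := by
    rw [mul_div_assoc', div_le_iff₀ hN0]
    nlinarith [(Nat.cast_nonneg m : (0 : ℝ) ≤ m)]
  refine le_of_mul_le_mul_right (h6.trans ?_) h7
  calc _ ≤ (4 * K * N * h.phi b m) * ‖a‖ := by gcongr; linarith
    _ = _ := by rw [phi]; ring

end IsNormedIdeal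

end Pool.Agent.P.MP_98688b_an.N
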