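import Mathlib
import Pool.Agent.P.MP_98688b_an.AmpAbs
import Pool.Agent.P.MP_98688b_an.N.Chain

/-!
A normed ideal without the harmonic diagonal operator is approximately semi-amenable.
-/

namespace Pool.Agent.P.MP_98688b_an.N

open InnerProductSpace Finset Module Filter Topology

set_option maxSynthPendingDepth 3

universe u v

variable {H : Type} [NormedAddCommGroup H] [InnerProductSpace ℂ H]

variable [CompleteSpace H] {J : Type} [NonUnitalNormedRing J] [NormedSpace ℂ J]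
  {ι : J →ₗ[ℂ] H →L[ℂ] H} {X : Type u} [NormedAddCommGroup X] [NormedSpace ℂ X]

namespace IsNormedIdeal

variable (h : IsNormedIdeal ι) (M : Bimodule J X) (D : J →L[ℂ] StrongDual ℂ X) (z : H)

/-- The sesquilinear map attached to a derivation. -/
noncomputable def psi : H →ₗ[ℂ] H →ₗ⋆[ℂ] StrongDual ℂ X :=
  LinearMap.mk₂'ₛₗ (RingHom.id ℂ) (starRingEnd ℂ) (fun x y => M.dR (h.r z y) (D (h.r x z)))
    (fun _ _ _ => by rw [h.r_add_left, map_add, map_add])
    (fun _ _ _ => by rw [h.r_smul_left, map_smul, map_smul]; rfl)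
    (fun _ _ _ => by rw [h.r_add_right, map_add, add_apply])
    (fun _ _ _ => by rw [h.r_smul_right, map_smul, smul_apply])

omit [CompleteSpace H] in
lemma psi_apply (x y : H) : h.psi M D z x y = M.dR (h.r z y) (D (h.r x z)) := rfl

variable {M D z} (hD : M.IsDerivation D) (hz : ‖z‖ = 1)

omit [CompleteSpace H] in
include hz in
lemma norm_psi (x y : H) : ‖h.psi M D z x y‖ ≤ ‖M.dR‖ * ‖D‖ * (‖x‖ * ‖y‖) := by
  calc _ ≤ ‖M.dR‖ * ‖h.r z y‖ * (‖D‖ * ‖h.r x z‖) :=
        (M.dR.le_opNorm₂ _ _).trans (by gcongr; exact D.le_opNorm _)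
    _ = _ := by rw [h.norm_r, h.norm_r, hz]; ring

omit [CompleteSpace H] in
include hD hz in
lemma dL_psi (a : J) (x y : H) :
    M.dL a (h.psi M D z x y) = h.psi M D z (ι a x) y - M.dR (h.r x y) (D a) := by
  rw [psi_apply, psi_apply, ← h.mul_r, hD.eq, map_add, ← M.dR_mul, h.r_mul_r hz, M.dL_dR,
    add_sub_cancel_right]

lemma dR_psi (a : J) (x y : H) :
    M.dR a (h.psi M D z x y) = h.psi M D z x (ContinuousLinearMap.adjoint (ι a) y) := by
  rw [psi_apply, psi_apply, ← h.r_mul, M.dR_mul]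

include hD hz in
lemma ad_psi {E : Submodule ℂ H} [FiniteDimensional ℂ E] {n : ℕ} {q : Fin n → H} (hq : Frame E q)
    (a : J) : M.ad (D (∑ i, h.r (q i) (q i)) - ∑ i, h.psi M D z (q i) (q i))
      (-∑ i, h.psi M D z (q i) (q i)) a = D (a * ∑ i, h.r (q i) (q i)) -
        (∑ i, h.psi M D z (Q E (ι a (q i))) (q i) -
          ∑ i, h.psi M D z (q i) (Q E (ContinuousLinearMap.adjoint (ι a) (q i)))) := by
  rw [← frame_mid _ hq, hD.eq, M.ad_eq, map_sub, map_neg, map_sum (M.dL a), map_sum (M.dR a),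
    map_sum M.dR, _root_.sum_apply]
  simp only [h.dL_psi hD hz, h.dR_psi, sum_sub_distrib]
  abel

include h in
theorem approx [CompleteSpace J] {b : ℕ → H} (hb : Orthonormal ℂ b)
    (hh : ¬ ∃ a, ∀ k, ι a (b k) = (1 / ((k : ℂ) + 1)) • b k) : IsApproxSemiAmenable.{u, v} J := by
  classical
  intro X _ _ _ M D hD
  suffices H0 : ∀ (F : Finset J) (ε : ℝ), 0 < ε → ∃ p : StrongDual ℂ X × StrongDual ℂ X,
      ∀ a ∈ F, ‖M.ad p.1 p.2 a - D a‖ < ε by
    obtain ⟨I, i1, i2, i3, p, hp⟩ := Bimodule.net_of_fin.{v} (fun _ _ => norm_nonneg _) H0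
    exact ⟨I, i1, i2, i3, fun i => (p i).1, fun i => (p i).2, hp⟩
  intro F ε hε
  have hz := hb.1 0
  set C := ‖M.dR‖ * ‖D‖ with hC
  have hC0 : 0 ≤ C := by positivity
  set δ := ε / (‖D‖ + 2 * C + 1) with hδ
  have hδ0 : 0 < δ := by positivity
  choose G hG c hc hc' using fun a : F => h.exists_approx a hδ0
  obtain ⟨E, hE, hGE, hs⟩ := h.exists_small hb hh
    (Sum.elim (fun a : F => ι a) (fun a : F => ContinuousLinearMap.adjoint (ι a)))
    (by
      rintro (a | a) ε hε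
      exacts [h.exists_good a hε, h.exists_good_adjoint a hε]) (⨆ a, G a) hδ0
  obtain ⟨q, hq, -⟩ := exists_svd E 0 rfl
  refine ⟨(D (∑ i, h.r (q i) (q i)) - ∑ i, h.psi M D (b 0) (q i) (q i),
    -∑ i, h.psi M D (b 0) (q i) (q i)), fun a ha => ?_⟩
  obtain ⟨x, hx, hx'⟩ := hs (.inl ⟨a, ha⟩)
  obtain ⟨y, hy, hy'⟩ := hs (.inr ⟨a, ha⟩)
  have h1 : ‖∑ i, h.psi M D (b 0) (Q E (ι a (q i))) (q i)‖ ≤ C * δ := by
    refine (congrArg norm (frame_left (h.psi M D (b 0)) hq hx (Q E ∘L ι a))).trans_le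
      ((norm_sum_le _ _).trans ((sum_le_sum fun i _ => h.norm_psi hz _ _).trans ?_))
    simp only [hx.on.1, mul_one, ← mul_sum]
    exact mul_le_mul_of_nonneg_left hx'.le hC0
  have h2 : ‖∑ i, h.psi M D (b 0) (q i) (Q E (ContinuousLinearMap.adjoint (ι a) (q i)))‖ ≤
      C * δ := by
    refine (congrArg norm (frame_right (h.psi M D (b 0)) hq hy
      (Q E ∘L ContinuousLinearMap.adjoint (ι a)))).trans_le
      ((norm_sum_le _ _).trans ((sum_le_sum fun i _ => h.norm_psi hz _ _).trans ?_))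
    simp only [hy.on.1, one_mul, ← mul_sum]
    exact mul_le_mul_of_nonneg_left hy'.le hC0
  have h3 : ‖a - a * ∑ i, h.r (q i) (q i)‖ ≤ δ := by
    refine (h.norm_le_of_eq (S := 1) (T := Q E) ?_ ContinuousLinearMap.norm_id_le
      (norm_Q_le E)).trans (hc ⟨a, ha⟩)
    ext1 w
    have e := (hc' ⟨a, ha⟩ _ (Submodule.orthogonal_le ((le_iSup G _).trans hGE) (Q_mem E w))).1
    simp only [map_sub, h.map_mul, map_sum, h.ι_r, sub_apply, mul_apply_eq_comp,
      _root_.sum_apply, rankOne_apply, hq.sub_Q, one_mul, sub_sub_cancel, ← e]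
  rw [h.ad_psi hD hz hq, sub_right_comm, ← map_sub]
  calc _ ≤ ‖D‖ * δ + (C * δ + C * δ) := by
        refine (norm_sub_le _ _).trans (add_le_add ((D.le_opNorm _).trans ?_)
          ((norm_sub_le _ _).trans (add_le_add h1 h2)))
        rw [norm_sub_rev]
        gcongr
    _ < (‖D‖ + 2 * C + 1) * δ := by linarith
    _ = ε := by rw [hδ]; field_simp

end IsNormedIdeal

end Pool.Agent.P.MP_98688b_an.N
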